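import Mathlib

set_option autoImplicit false

open CategoryTheory Abelian

namespace Pool.Agent.Helper35.AR

/-- `EV R X n Y`: extension form of the vanishing of Ext groups from `Y` to `X` in positive degrees
up to `n`: every map from the kernel of a surjection from a finite free module onto `Y` into `X`
extends to the free module, and the same holds for the kernel, `n` times. -/
def EV (R : Type) [CommRing R] (X : Type) [AddCommGroup X] [Module R X] :
    ℕ → (Y : Type) → [AddCommGroup Y] → [Module R Y] → Prop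
  | 0, _, _, _ => True
  | n + 1, Y, _, _ => ∀ (m : ℕ) (π : (Fin m → R) →ₗ[R] Y), Function.Surjective π →
      (∀ f : LinearMap.ker π →ₗ[R] X, ∃ g : (Fin m → R) →ₗ[R] X,
        ∀ v : LinearMap.ker π, g v = f v) ∧
      EV R X n (LinearMap.ker π)

section

variable {R : Type} [CommRing R] [HasExt.{0} (ModuleCat.{0} R)]
variable {F Y X : Type} [AddCommGroup F] [Module R F] [AddCommGroup Y] [Module R Y]
  [AddCommGroup X] [Module R X]

theorem extend_of_ext_one (π : F →ₗ[R] Y) (hπ : Function.Surjective π)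
    (h : Subsingleton (Ext (ModuleCat.of R Y) (ModuleCat.of R X) 1))
    (f : LinearMap.ker π →ₗ[R] X) : ∃ g : F →ₗ[R] X, ∀ v : LinearMap.ker π, g v = f v := by
  have hS := LinearMap.shortExact_shortComplexKer hπ
  obtain ⟨x₂, hx₂⟩ := Ext.contravariant_sequence_exact₁ hS (ModuleCat.of R X)
    (Ext.mk₀ (ModuleCat.ofHom f)) (add_comm 1 0)
    (Subsingleton.elim (α := Ext (ModuleCat.of R Y) (ModuleCat.of R X) 1) _ _)
  obtain ⟨g, rfl⟩ := (Ext.mk₀_bijective _ _).2 x₂
  rw [Ext.mk₀_comp_mk₀, (Ext.mk₀_bijective _ _).1.eq_iff] at hx₂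
  refine ⟨g.hom, fun v => ?_⟩
  have := congrArg (fun t => t.hom v) hx₂
  simpa using this

theorem ext_ker (π : F →ₗ[R] Y) (hπ : Function.Surjective π) [Module.Projective R F] (n : ℕ)
    (h : Subsingleton (Ext (ModuleCat.of R Y) (ModuleCat.of R X) (n + 2))) :
    Subsingleton (Ext (ModuleCat.of R (LinearMap.ker π)) (ModuleCat.of R X) (n + 1)) := by
  have hS := LinearMap.shortExact_shortComplexKer hπ
  refine subsingleton_of_forall_eq 0 fun x₁ => ?_
  obtain ⟨x₂, hx₂⟩ := Ext.contravariant_sequence_exact₁ hS (ModuleCat.of R X)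
    x₁ (show 1 + (n + 1) = n + 2 by omega)
    (Subsingleton.elim (α := Ext (ModuleCat.of R Y) (ModuleCat.of R X) (n + 2)) _ _)
  have : Projective (ModuleCat.of R F) := (ModuleCat.of R F).projective_of_categoryTheory_projective
  have h0 : x₂ = 0 := Ext.eq_zero_of_projective (P := ModuleCat.of R F) x₂
  rw [← hx₂, h0, Ext.comp_zero]

/-- Vanishing of all Ext groups in positive degrees gives `EV`. -/
theorem ev_of_ext (n : ℕ) : ∀ (Y : Type) [AddCommGroup Y] [Module R Y],
    (∀ i : ℕ, 0 < i → Subsingleton (Ext (ModuleCat.of R Y) (ModuleCat.of R X) i)) →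
    EV R X n Y := by
  induction n with
  | zero => intro Y _ _ _; trivial
  | succ n ih =>
    intro Y _ _ h m π hπ
    refine ⟨fun f => extend_of_ext_one π hπ (h 1 one_pos) f, ih _ fun i hi => ?_⟩
    obtain ⟨j, rfl⟩ : ∃ j, i = j + 1 := ⟨i - 1, by omega⟩
    exact ext_ker π hπ j (h (j + 2) (by omega))

theorem ext_fun_free (Y : Type) [AddCommGroup Y] [Module R Y] (m : ℕ) (i : ℕ)
    (h : Subsingleton (Ext (ModuleCat.of R Y) (ModuleCat.of R R) i)) :
    Subsingleton (Ext (ModuleCat.of R Y) (ModuleCat.of R (Fin m → R)) i) := by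
  refine subsingleton_of_forall_eq 0 fun x => ?_
  have hid : (𝟙 (ModuleCat.of R (Fin m → R))) = ∑ j : Fin m,
      (ModuleCat.ofHom (LinearMap.proj j : (Fin m → R) →ₗ[R] R)) ≫
        (ModuleCat.ofHom (LinearMap.single R (fun _ : Fin m => R) j)) := by
    ext v t
    simp only [ModuleCat.hom_id, LinearMap.id_coe, id_eq, ModuleCat.hom_sum, ModuleCat.hom_comp,
      ModuleCat.hom_ofHom, LinearMap.coe_sum, Finset.sum_apply, LinearMap.comp_apply,
      LinearMap.proj_apply, LinearMap.single_apply]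
    simp [Pi.single_apply]
  rw [← Ext.comp_mk₀_id x, hid, Ext.mk₀_sum, Ext.comp_sum]
  refine Finset.sum_eq_zero fun j _ => ?_
  rw [← Ext.mk₀_comp_mk₀, ← Ext.comp_assoc_of_third_deg_zero]
  rw [Subsingleton.elim (x.comp (Ext.mk₀ (ModuleCat.ofHom (LinearMap.proj j : (Fin m → R) →ₗ[R] R)))
    (add_zero i)) 0, Ext.zero_comp]

/-- If all positive Ext groups from `M` to `M` and to the ring vanish then the same holds for the
first syzygy. -/
theorem ext_syz {M : Type} [AddCommGroup M] [Module R M]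
    (h1 : ∀ i : ℕ, 0 < i → Subsingleton (Ext (ModuleCat.of R M) (ModuleCat.of R R) i))
    (h2 : ∀ i : ℕ, 0 < i → Subsingleton (Ext (ModuleCat.of R M) (ModuleCat.of R M) i))
    (m : ℕ) (π : (Fin m → R) →ₗ[R] M) (hπ : Function.Surjective π) (i : ℕ) (hi : 0 < i) :
    Subsingleton (Ext (ModuleCat.of R (LinearMap.ker π)) (ModuleCat.of R (LinearMap.ker π)) i) := by
  have hS := LinearMap.shortExact_shortComplexKer hπ
  obtain ⟨j, rfl⟩ : ∃ j, i = j + 1 := ⟨i - 1, by omega⟩
  have hKR : Subsingleton (Ext (ModuleCat.of R (LinearMap.ker π)) (ModuleCat.of R R) (j + 1)) :=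
    ext_ker π hπ j (h1 (j + 2) (by omega))
  have hKF : Subsingleton
      (Ext (ModuleCat.of R (LinearMap.ker π)) (ModuleCat.of R (Fin m → R)) (j + 1)) :=
    ext_fun_free _ m _ hKR
  refine subsingleton_of_forall_eq 0 fun x₁ => ?_
  obtain ⟨x₃, hx₃⟩ := Ext.covariant_sequence_exact₁ (ModuleCat.of R (LinearMap.ker π)) hS x₁
    (Subsingleton.elim (α := Ext (ModuleCat.of R (LinearMap.ker π))
      (ModuleCat.of R (Fin m → R)) (j + 1)) _ _) (n₀ := j) rfl
  rcases Nat.eq_zero_or_pos j with rfl | hj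
  · obtain ⟨f, rfl⟩ := (Ext.mk₀_bijective _ _).2 x₃
    obtain ⟨g, hg⟩ := extend_of_ext_one π hπ (h2 1 one_pos) f.hom
    obtain ⟨l, hl⟩ := Module.projective_lifting_property π g hπ
    have hf : f = ModuleCat.ofHom (l.comp (LinearMap.ker π).subtype) ≫ ModuleCat.ofHom π := by
      ext v
      have h3 := LinearMap.congr_fun hl (v : Fin m → R)
      simp only [LinearMap.comp_apply] at h3
      simp only [ModuleCat.hom_comp, ModuleCat.hom_ofHom, LinearMap.comp_apply,
        Submodule.subtype_apply, h3]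
      exact (hg v).symm
    rw [← hx₃, hf, ← Ext.mk₀_comp_mk₀]
    rw [Ext.comp_assoc_of_second_deg_zero]
    have := hS.comp_extClass
    rw [show (Ext.mk₀ (ModuleCat.ofHom π)).comp hS.extClass (zero_add 1) = 0 from this,
      Ext.comp_zero]
  · obtain ⟨t, rfl⟩ : ∃ t, j = t + 1 := ⟨j - 1, by omega⟩
    have := ext_ker π hπ t (h2 (t + 2) (by omega))
    have h0 : x₃ = 0 := Subsingleton.elim (α := Ext (ModuleCat.of R (LinearMap.ker π))
      (ModuleCat.of R M) (t + 1)) _ _
    rw [← hx₃, h0, Ext.zero_comp]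

end

end Pool.Agent.Helper35.AR
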