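import Pool.Agent.Helper35.AR.Spread

set_option autoImplicit false
set_option linter.unusedSectionVars false

open CategoryTheory Abelian RingTheory.Sequence Module

namespace Pool.Agent.Helper35.AR

section syz

variable {R : Type} [CommRing R]

theorem isSyz_succ {N : Type} [AddCommGroup N] [Module R N] (m : ℕ) (π : (Fin m → R) →ₗ[R] N)
    (hπ : Function.Surjective π) (n : ℕ) : ∀ (M : Type) [AddCommGroup M] [Module R M],
    IsSyz R N n M → IsSyz R (LinearMap.ker π) (n + 1) M := by
  induction n with
  | zero =>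
    intro M _ _ h
    obtain ⟨e⟩ := h
    refine ⟨m, e.symm.toLinearMap.comp π, e.symm.surjective.comp hπ, ?_⟩
    have hk : LinearMap.ker (e.symm.toLinearMap.comp π) = LinearMap.ker π := by
      ext v
      simp
    exact ⟨LinearEquiv.ofEq _ _ hk⟩
  | succ n ih =>
    intro M _ _ h
    obtain ⟨m', π', hπ', h3⟩ := h
    exact ⟨m', π', hπ', ih _ h3⟩

/-- A finitely generated module all of whose elements are in the multiples of an ideal contained
in the maximal ideal is zero. -/
theorem subsingleton_of_le [IsLocalRing R] {N : Type} [AddCommGroup N] [Module R N]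
    [Module.Finite R N] {rs : List R} (hrs : ∀ r ∈ rs, r ∈ IsLocalRing.maximalIdeal R)
    (h1 : (⊤ : Submodule R N) ≤ Ideal.ofList rs • ⊤) : Subsingleton N := by
  have h2 : (⊤ : Submodule R N) = ⊥ := by
    refine Submodule.eq_bot_of_le_smul_of_le_jacobson_bot (Ideal.ofList rs) ⊤
      Module.Finite.fg_top h1 ?_
    rw [IsLocalRing.jacobson_eq_maximalIdeal _ bot_ne_top, Ideal.ofList, Ideal.span_le]
    intro r hr
    exact hrs r hr
  refine ⟨fun a b => ?_⟩
  have ha : a ∈ (⊥ : Submodule R N) := h2 ▸ Submodule.mem_top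
  have hb : b ∈ (⊥ : Submodule R N) := h2 ▸ Submodule.mem_top
  rw [Submodule.mem_bot] at ha hb
  rw [ha, hb]

/-- The vanishing descends to the reduction of a syzygy. -/
theorem ev_of_syz [IsNoetherianRing R] [IsLocalRing R]
    [HasExt.{0} (ModuleCat.{0} R)]
    (M : Type) [AddCommGroup M] [Module R M] [Module.Finite R M]
    (hMR : ∀ i : ℕ, 0 < i →
      Subsingleton (Abelian.Ext (ModuleCat.of R M) (ModuleCat.of R R) i))
    (hMM : ∀ i : ℕ, 0 < i →
      Subsingleton (Abelian.Ext (ModuleCat.of R M) (ModuleCat.of R M) i))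
    (n : ℕ) (N : Type) [AddCommGroup N] [Module R N] (hN : IsSyz R N n M)
    (rs : List R) (hrs : ∀ r ∈ rs, r ∈ IsLocalRing.maximalIdeal R)
    (hregR : IsWeaklyRegular R rs) (hregN : IsWeaklyRegular N rs)
    (A : Type) [CommRing A] [Algebra R A]
    (hAsurj : Function.Surjective (algebraMap R A))
    (hAker : RingHom.ker (algebraMap R A) = Ideal.ofList rs)
    (X : Type) [AddCommGroup X] [Module A X] [Module R X]
    [IsScalarTower R A X] (ρ : N →ₗ[R] X) (hρsurj : Function.Surjective ρ)
    (hρker : LinearMap.ker ρ = (Ideal.ofList rs • ⊤ : Submodule R N)) (m : ℕ) : EV A X m X := by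
  have hNfin : Module.Finite R N := finite_of_isSyz n M hN
  obtain ⟨hNR, hNN⟩ := ext_of_isSyz n M hN hMR hMM
  have h1 := ext_quot rs N hregN hNN
  have h2 : EV R (N ⧸ (Ideal.ofList rs • ⊤ : Submodule R N)) m N := ev_of_ext m N h1
  have h3 : EV R X m N := ev_congr
    ((Submodule.quotEquivOfEq _ _ hρker.symm).trans (ρ.quotKerEquivOfSurjective hρsurj)) m N h2
  exact ev_descent hAsurj hAker hrs hregR m N hregN X ρ hρsurj hρker h3

/-- If the reduction of some syzygy is zero then the module is free. -/
theorem free_of_syz [IsNoetherianRing R] [IsLocalRing R]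
    [HasExt.{0} (ModuleCat.{0} R)]
    (M : Type) [AddCommGroup M] [Module R M] [Module.Finite R M]
    (hMR : ∀ i : ℕ, 0 < i →
      Subsingleton (Abelian.Ext (ModuleCat.of R M) (ModuleCat.of R R) i))
    (n : ℕ) (N : Type) [AddCommGroup N] [Module R N] (hN : IsSyz R N n M)
    (rs : List R) (hrs : ∀ r ∈ rs, r ∈ IsLocalRing.maximalIdeal R)
    (X : Type) [AddCommGroup X] [Module R X] [Subsingleton X] (ρ : N →ₗ[R] X)
    (hρker : LinearMap.ker ρ = (Ideal.ofList rs • ⊤ : Submodule R N)) : Module.Free R M := by
  have hNfin : Module.Finite R N := finite_of_isSyz n M hN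
  have hNsub : Subsingleton N := by
    apply subsingleton_of_le hrs
    intro u _
    rw [← hρker, LinearMap.mem_ker]
    exact Subsingleton.elim _ _
  have hNp : Module.Projective R N := by
    have : Module.Free R N := Module.Free.of_subsingleton R N
    infer_instance
  have hMp : Module.Projective R M := projective_of_isSyz hNp n M hN hMR
  exact Module.free_of_flat_of_isLocalRing

end syz

section core

variable (R : Type) [CommRing R] [IsNoetherianRing R] [IsLocalRing R]
    [HasExt.{0} (ModuleCat.{0} R)]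
    (M : Type) [AddCommGroup M] [Module R M] [Module.Finite R M]
    (hMR : ∀ i : ℕ, 0 < i →
      Subsingleton (Abelian.Ext (ModuleCat.of R M) (ModuleCat.of R R) i))
    (hMM : ∀ i : ℕ, 0 < i →
      Subsingleton (Abelian.Ext (ModuleCat.of R M) (ModuleCat.of R M) i))
    (n : ℕ) (N : Type) [AddCommGroup N] [Module R N] (hN : IsSyz R N n M)
    (rs : List R) (hrs : ∀ r ∈ rs, r ∈ IsLocalRing.maximalIdeal R)
    (hregR : IsWeaklyRegular R rs) (hregN : IsWeaklyRegular N rs)
    (k A : Type) [Field k] [CommRing A] [Algebra k A] [FiniteDimensional k A] [Algebra R A]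
    (hAsurj : Function.Surjective (algebraMap R A))
    (hAker : RingHom.ker (algebraMap R A) = Ideal.ofList rs)
    (gA : Gd k A) (hA : RingGd gA)
    (X : Type) [AddCommGroup X] [Module k X] [Module A X] [Module R X] [IsScalarTower k A X]
    [IsScalarTower R A X] (ρ : N →ₗ[R] X) (hρsurj : Function.Surjective ρ)
    (hρker : LinearMap.ker ρ = (Ideal.ofList rs • ⊤ : Submodule R N))
    (gX : Gd k X) (hXc : Compat gA gX)

include hMR hMM hN hrs hregR hregN hAsurj hAker hA hρsurj hρker hXc

theorem core (D : ℤ) (hD : gA.pc D ≠ ⊥) (hX : ∀ e : ℤ, gX.pc e = ⊥ ∨ gX.pc (e + D) = ⊥) :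
    Module.Free R M := by
  have hNfin : Module.Finite R N := finite_of_isSyz n M hN
  have hXR : Module.Finite R X := Module.Finite.of_surjective ρ hρsurj
  have hXA : Module.Finite A X := Module.Finite.of_restrictScalars_finite R A X
  have hXk : Module.Finite k X := Module.Finite.trans A X
  have hev := ev_of_syz M hMR hMM n N hN rs hrs hregR hregN A hAsurj hAker X ρ hρsurj hρker
  have hsub : Subsingleton X := by
    by_contra h
    rw [not_subsingleton_iff_nontrivial] at h
    obtain ⟨e, he1, he2⟩ := spread hA hXc hev D hD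
    exact (hX e).elim he1 he2
  exact free_of_syz M hMR n N hN rs hrs X ρ hρker

/-- The case where the reduction of the syzygy has homogeneous generators in degrees at most `g`
and no nonzero relation in degrees at most `g`. -/
theorem core_gap {m : ℕ} (x : Fin m → X) (c : Fin m → ℤ) (hx : ∀ b, x b ∈ gX.pc (c b))
    (hgen : ∀ y : X, ∃ v : Fin m → A, ∑ b, v b • x b = y) (g : ℤ) (hcg : ∀ b, c b ≤ g)
    (hrel : ∀ j ≤ g, ∀ v : Fin m → A, (∀ b, v b ∈ gA.pc (j - c b)) → ∑ b, v b • x b = 0 → v = 0) :
    Module.Free R M := by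
  have hNfin : Module.Finite R N := finite_of_isSyz n M hN
  have hAnt : Nontrivial A := by
    rw [← not_subsingleton_iff_nontrivial]
    intro h
    have h1 : (1 : R) ∈ RingHom.ker (algebraMap R A) := Subsingleton.elim _ _
    rw [hAker] at h1
    have h2 : Ideal.ofList rs ≤ IsLocalRing.maximalIdeal R := by
      rw [Ideal.ofList, Ideal.span_le]
      intro r hr
      exact hrs r hr
    exact (IsLocalRing.mem_maximalIdeal (1 : R)).1 (h2 h1) isUnit_one
  have hπ' : Function.Surjective (lc x : (Fin m → A) →ₗ[A] X) := by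
    intro y
    obtain ⟨v, hv⟩ := hgen y
    exact ⟨v, by rw [lc_apply, hv]⟩
  obtain ⟨π, hπ, hKreg, ρK, hρK, hkK, hval⟩ :=
    lift_cover hAsurj hAker hrs hregR N hregN X ρ hρsurj hρker m (lc x) hπ'
  have hd : ∀ j v, v ∈ (freeGd gA c).pc j → (lc x : (Fin m → A) →ₗ[A] X) v ∈ gX.pc j := by
    intro j v hv
    rw [lc_apply]
    refine Submodule.sum_mem _ fun i _ => ?_
    have := hXc (j - c i) (c i) (v i) (x i) (hv i) (hx i)
    rwa [sub_add_cancel] at this
  -- the top degree of the ring
  obtain ⟨D, hD, hDtop⟩ : ∃ D, gA.pc D ≠ ⊥ ∧ ∀ j, D < j → gA.pc j = ⊥ := by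
    classical
    let T := gA.S.filter fun j => gA.pc j ≠ ⊥
    have hT : T.Nonempty := by
      refine ⟨0, Finset.mem_filter.2 ⟨?_, ?_⟩⟩
      · by_contra h
        have h1 := hA.one
        rw [gA.supp h, Submodule.mem_bot] at h1
        exact one_ne_zero h1
      · intro h
        have h1 := hA.one
        rw [h, Submodule.mem_bot] at h1
        exact one_ne_zero h1
    refine ⟨T.max' hT, (Finset.mem_filter.1 (T.max'_mem hT)).2, fun j hj => ?_⟩
    by_contra h
    have h1 : j ∈ T := by
      refine Finset.mem_filter.2 ⟨?_, h⟩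
      by_contra h2
      exact h (gA.supp h2)
    exact absurd (T.le_max' j h1) (not_le.2 hj)
  have hN' : IsSyz R (LinearMap.ker π) (n + 1) M := isSyz_succ m π hπ n M hN
  let g' := kerGd (gF := freeGd gA c) (gY := gX) (lc x : (Fin m → A) →ₗ[A] X) hd
  have hc' : Compat gA g' := kerGd_compat _ hd (freeGd_compat hA c)
  refine core R M hMR hMM (n + 1) (LinearMap.ker π) hN' rs hrs hregR hKreg
    k A hAsurj hAker gA hA (LinearMap.ker (lc x : (Fin m → A) →ₗ[A] X)) ρK hρK hkK
    g' hc' D hD fun e => ?_
  by_cases he : e ≤ g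
  · left
    rw [Submodule.eq_bot_iff]
    rintro ⟨v, hv⟩ hvj
    ext1
    refine hrel e he v hvj ?_
    rw [← lc_apply]
    exact LinearMap.mem_ker.1 hv
  · right
    rw [Submodule.eq_bot_iff]
    rintro ⟨v, hv⟩ hvj
    ext1
    ext b
    have h1 : v b ∈ gA.pc (e + D - c b) := hvj b
    rw [hDtop _ (by have := hcg b; omega), Submodule.mem_bot] at h1
    exact h1

/-- The case where the reduction of the syzygy is generated in one degree. -/
theorem core_one (g : ℤ) (hgen : Submodule.span A (gX.pc g : Set X) = ⊤) : Module.Free R M := by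
  have hNfin : Module.Finite R N := finite_of_isSyz n M hN
  have hXR : Module.Finite R X := Module.Finite.of_surjective ρ hρsurj
  have hXA : Module.Finite A X := Module.Finite.of_restrictScalars_finite R A X
  have hXk : Module.Finite k X := Module.Finite.trans A X
  let b := Module.finBasis k (gX.pc g)
  refine core_gap R M hMR hMM n N hN rs hrs hregR hregN k A hAsurj hAker gA hA X ρ hρsurj hρker
    gX hXc (fun i => (b i : X)) (fun _ => g) (fun i => (b i).2) ?_ g (fun _ => le_rfl) ?_
  · intro y
    have h1 : Submodule.span A (Set.range fun i => (b i : X)) = ⊤ := by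
      rw [eq_top_iff, ← hgen, Submodule.span_le]
      intro z hz
      have h2 : z = ∑ i, (b.repr ⟨z, hz⟩ i) • (b i : X) := by
        have h3 := congrArg (fun t : gX.pc g => (t : X)) (b.sum_repr ⟨z, hz⟩)
        simp only [Submodule.coe_sum, Submodule.coe_smul] at h3
        exact h3.symm
      rw [h2]
      refine Submodule.sum_mem _ fun i _ => ?_
      rw [← algebraMap_smul A]
      exact Submodule.smul_mem _ _ (Submodule.subset_span ⟨i, rfl⟩)
    have hy : y ∈ Submodule.span A (Set.range fun i => (b i : X)) := by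
      rw [h1]; trivial
    rw [Submodule.mem_span_range_iff_exists_fun] at hy
    exact hy
  · intro j hj v hv hsum
    have hval : ∀ i, ∃ a : k, algebraMap k A a = v i := by
      intro i
      have h1 := hv i
      by_cases h3 : j - g < 0
      · rw [hA.neg _ h3, Submodule.mem_bot] at h1
        exact ⟨0, by rw [h1, map_zero]⟩
      · have h4 : j - g = 0 := by omega
        rw [h4] at h1
        exact hA.zero _ h1
    choose a ha using hval
    have h5 : ∑ i, a i • b i = 0 := by
      ext1
      rw [Submodule.coe_sum]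
      simp only [Submodule.coe_smul]
      rw [Submodule.coe_zero, ← hsum]
      exact Finset.sum_congr rfl fun i _ => by rw [← ha i, algebraMap_smul]
    have h7 := Fintype.linearIndependent_iff.1 b.linearIndependent a h5
    ext i
    rw [← ha i, h7 i, map_zero]
    rfl

end core

end Pool.Agent.Helper35.AR
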