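import Pool.Agent.Helper35.AR.Bridge

set_option autoImplicit false
set_option linter.unusedSectionVars false

namespace Pool.Agent.Helper35.AR

open Module

/-- Grading data with finitely many pieces on a vector space. -/
structure Gd (k : Type) [Field k] (Y : Type) [AddCommGroup Y] [Module k Y] where
  /-- the pieces -/
  pc : ℤ → Submodule k Y
  /-- the projections to the pieces -/
  P : ℤ → Y →ₗ[k] Y
  /-- a finite set of degrees -/
  S : Finset ℤ
  mem : ∀ j y, P j y ∈ pc j
  fix : ∀ j y, y ∈ pc j → P j y = y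
  ne : ∀ i j y, i ≠ j → y ∈ pc j → P i y = 0
  sum : ∀ y, ∑ j ∈ S, P j y = y

section basic

variable {k : Type} [Field k] {Y : Type} [AddCommGroup Y] [Module k Y]

theorem Gd.supp (g : Gd k Y) {j : ℤ} (hj : j ∉ g.S) : g.pc j = ⊥ := by
  rw [Submodule.eq_bot_iff]
  intro y hy
  rw [← g.sum y]
  refine Finset.sum_eq_zero fun i hi => g.ne i j y ?_ hy
  rintro rfl
  exact hj hi

theorem Gd.P_eq_zero (g : Gd k Y) {j : ℤ} (hj : g.pc j = ⊥) (y : Y) : g.P j y = 0 := by
  have := g.mem j y
  rw [hj] at this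
  simpa using this

/-- a homogeneous basis -/
theorem Gd.exists_basis (g : Gd k Y) [Module.Finite k Y] :
    ∃ (m : ℕ) (b : Fin m → Y) (c : Fin m → ℤ), (∀ i, b i ∈ g.pc (c i)) ∧
      LinearIndependent k b ∧ ∀ y : Y, ∃ v : Fin m → k, ∑ i, v i • b i = y := by
  classical
  obtain ⟨b, hbs, hspan, hli⟩ := exists_linearIndependent k (⋃ j, (g.pc j : Set Y))
  have hfin : Finite b := hli.finite
  have : Fintype b := Fintype.ofFinite b
  let e := (Fintype.equivFin b).symm
  have hc : ∀ i : Fin (Fintype.card b), ∃ j, ((e i : b) : Y) ∈ g.pc j := by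
    intro i
    simpa using hbs (e i).2
  choose c hc using hc
  refine ⟨Fintype.card b, fun i => ((e i : b) : Y), c, hc, hli.comp e e.injective, ?_⟩
  have htop : Submodule.span k (Set.range (fun i => ((e i : b) : Y))) = ⊤ := by
    have h1 : Set.range (fun i => ((e i : b) : Y)) = b := by
      ext y
      constructor
      · rintro ⟨i, rfl⟩
        exact (e i).2
      · intro hy
        exact ⟨e.symm ⟨y, hy⟩, by simp⟩
    rw [h1, hspan, eq_top_iff]
    intro y _
    rw [← g.sum y]
    exact Submodule.sum_mem _ fun j _ => Submodule.subset_span (Set.mem_iUnion.2 ⟨j, g.mem j y⟩)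
  intro y
  have hy : y ∈ Submodule.span k (Set.range (fun i => ((e i : b) : Y))) := by
    rw [htop]; trivial
  rw [Submodule.mem_span_range_iff_exists_fun] at hy
  exact hy

theorem finrank_of_exact {A B C : Type} [AddCommGroup A] [Module k A] [AddCommGroup B] [Module k B]
    [AddCommGroup C] [Module k C] [Module.Finite k B] (i : A →ₗ[k] B) (p : B →ₗ[k] C)
    (hi : Function.Injective i) (hp : Function.Surjective p)
    (hex : ∀ b, p b = 0 ↔ ∃ a, i a = b) : finrank k A + finrank k C = finrank k B := by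
  have h1 := LinearMap.finrank_range_add_finrank_ker p
  rw [LinearMap.range_eq_top.2 hp, finrank_top] at h1
  have h2 : LinearMap.ker p = LinearMap.range i := by
    ext b
    simp [hex]
  rw [h2, LinearMap.finrank_range_of_inj hi] at h1
  omega

end basic

section ring

variable {k R : Type} [Field k] [CommRing R] [Algebra k R]

/-- compatibility of the grading data of a module with those of the ring -/
def Compat (gR : Gd k R) {Y : Type} [AddCommGroup Y] [Module k Y] [Module R Y] (g : Gd k Y) : Prop :=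
  ∀ i j r y, r ∈ gR.pc i → y ∈ g.pc j → r • y ∈ g.pc (i + j)

variable {gR : Gd k R}
variable {Y : Type} [AddCommGroup Y] [Module k Y] [Module R Y] [IsScalarTower k R Y]
variable {X : Type} [AddCommGroup X] [Module k X] [Module R X] [IsScalarTower k R X]
variable {F : Type} [AddCommGroup F] [Module k F] [Module R F] [IsScalarTower k R F]

omit [IsScalarTower k R Y] in
theorem P_smul {g : Gd k Y} (h : Compat gR g) {i : ℤ} (j : ℤ) {r : R} (hr : r ∈ gR.pc i) (y : Y) :
    g.P (i + j) (r • y) = r • g.P j y := by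
  have key : ∀ l ∈ g.S, g.P (i + j) (r • g.P l y) = if l = j then r • g.P j y else 0 := by
    intro l _
    split_ifs with hl
    · subst hl
      exact g.fix _ _ (h _ _ _ _ hr (g.mem _ _))
    · exact g.ne _ (i + l) _ (by omega) (h _ _ _ _ hr (g.mem _ _))
  conv_lhs => rw [← g.sum y, Finset.smul_sum, map_sum]
  rw [Finset.sum_congr rfl key, Finset.sum_ite_eq']
  split_ifs with hj
  · rfl
  · rw [g.P_eq_zero (g.supp hj), smul_zero]

/-- the homogeneous component of degree `q` of a linear map, as a `k`-linear map -/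
noncomputable def hcK (gF : Gd k F) (gX : Gd k X) (q : ℤ) (f : F →ₗ[R] X) : F →ₗ[k] X :=
  ∑ j ∈ gF.S, (gX.P (j + q)) ∘ₗ (f.restrictScalars k) ∘ₗ (gF.P j)

theorem hcK_apply (gF : Gd k F) (gX : Gd k X) (q : ℤ) (f : F →ₗ[R] X) {l : ℤ} {v : F}
    (hv : v ∈ gF.pc l) : hcK gF gX q f v = gX.P (l + q) (f v) := by
  have h1 : ∀ j ∈ gF.S, ((gX.P (j + q)) ∘ₗ (f.restrictScalars k) ∘ₗ (gF.P j)) v =
      if j = l then gX.P (l + q) (f v) else 0 := by
    intro j _
    simp only [LinearMap.comp_apply, LinearMap.restrictScalars_apply]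
    split_ifs with hj
    · subst hj
      rw [gF.fix _ _ hv]
    · rw [gF.ne _ _ _ hj hv, map_zero, map_zero]
  rw [hcK, LinearMap.sum_apply, Finset.sum_congr rfl h1, Finset.sum_ite_eq']
  split_ifs with hl
  · rfl
  · have := hv
    rw [gF.supp hl, Submodule.mem_bot] at this
    rw [this, map_zero, map_zero]

theorem hcK_smul (gF : Gd k F) (gX : Gd k X) (hF : Compat gR gF) (hX : Compat gR gX) (q : ℤ)
    (f : F →ₗ[R] X) (r : R) (v : F) : hcK gF gX q f (r • v) = r • hcK gF gX q f v := by
  have h1 : ∀ i l, hcK gF gX q f (gR.P i r • gF.P l v) = gR.P i r • hcK gF gX q f (gF.P l v) := by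
    intro i l
    rw [hcK_apply gF gX q f (hF _ _ _ _ (gR.mem i r) (gF.mem l v)),
      hcK_apply gF gX q f (gF.mem l v), map_smul, add_assoc,
      P_smul hX (l + q) (gR.mem i r)]
  conv_lhs => rw [← gR.sum r, ← gF.sum v, Finset.sum_smul_sum]
  conv_rhs => rw [← gR.sum r, ← gF.sum v]
  rw [map_sum, map_sum, Finset.sum_smul_sum]
  refine Finset.sum_congr rfl fun i _ => ?_
  rw [map_sum]
  exact Finset.sum_congr rfl fun l _ => h1 i l

/-- the homogeneous component of degree `q` of a linear map -/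
noncomputable def hc (gF : Gd k F) (gX : Gd k X) (hF : Compat gR gF) (hX : Compat gR gX) (q : ℤ)
    (f : F →ₗ[R] X) : F →ₗ[R] X :=
  { hcK gF gX q f with map_smul' := hcK_smul gF gX hF hX q f }

theorem hc_apply (gF : Gd k F) (gX : Gd k X) (hF : Compat gR gF) (hX : Compat gR gX) (q : ℤ)
    (f : F →ₗ[R] X) {l : ℤ} {v : F}
    (hv : v ∈ gF.pc l) : hc gF gX hF hX q f v = gX.P (l + q) (f v) :=
  hcK_apply gF gX q f hv

/-- maps homogeneous of degree `q` -/
def HomQ (R : Type) [CommRing R] [Algebra k R] [Module R Y] [IsScalarTower k R Y]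
    [Module R X] [IsScalarTower k R X] (gY : Gd k Y) (gX : Gd k X) (q : ℤ) :
    Submodule k (Y →ₗ[R] X) where
  carrier := {f | ∀ j y, y ∈ gY.pc j → f y ∈ gX.pc (j + q)}
  add_mem' := fun hf hg j y hy => add_mem (hf j y hy) (hg j y hy)
  zero_mem' := fun j y _ => by simp
  smul_mem' := fun c f hf j y hy => by
    rw [LinearMap.smul_apply]
    exact Submodule.smul_mem _ _ (hf j y hy)

theorem mem_HomQ {gY : Gd k Y} {gX : Gd k X} {q : ℤ} {f : Y →ₗ[R] X} :
    f ∈ HomQ R gY gX q ↔ ∀ j y, y ∈ gY.pc j → f y ∈ gX.pc (j + q) := Iff.rfl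

theorem finite_hom [Module.Finite k Y] [Module.Finite k X] : Module.Finite k (Y →ₗ[R] X) :=
  Module.Finite.of_injective (LinearMap.restrictScalarsₗ k R Y X k)
    (LinearMap.restrictScalars_injective k)

theorem pi_P {gF : Gd k F} {gY : Gd k Y} (π : F →ₗ[R] Y)
    (hd : ∀ j v, v ∈ gF.pc j → π v ∈ gY.pc j) (j : ℤ) (v : F) : gY.P j (π v) = π (gF.P j v) := by
  have key : ∀ l ∈ gF.S, gY.P j (π (gF.P l v)) = if l = j then π (gF.P j v) else 0 := by
    intro l _
    split_ifs with hl
    · subst hl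
      exact gY.fix _ _ (hd _ _ (gF.mem _ _))
    · exact gY.ne _ l _ (fun h => hl h.symm) (hd _ _ (gF.mem _ _))
  conv_lhs => rw [← gF.sum v, map_sum, map_sum]
  rw [Finset.sum_congr rfl key, Finset.sum_ite_eq']
  split_ifs with hj
  · rfl
  · rw [gF.P_eq_zero (gF.supp hj), map_zero]

/-- grading data on the kernel of a homogeneous map -/
def kerGd {gF : Gd k F} {gY : Gd k Y} (π : F →ₗ[R] Y)
    (hd : ∀ j v, v ∈ gF.pc j → π v ∈ gY.pc j) : Gd k (LinearMap.ker π) where
  pc := fun j => (gF.pc j).comap ((LinearMap.ker π).subtype.restrictScalars k)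
  P := fun j =>
    { toFun := fun w => ⟨gF.P j w, by
        rw [LinearMap.mem_ker, ← pi_P π hd, LinearMap.mem_ker.1 w.2, map_zero]⟩
      map_add' := fun a b => by ext1; simp
      map_smul' := fun c a => by ext1; simp }
  S := gF.S
  mem := fun j w => gF.mem j w
  fix := fun j w hw => by ext1; exact gF.fix j w hw
  ne := fun i j w hij hw => by ext1; exact gF.ne i j w hij hw
  sum := fun w => by
    ext1
    have : ((∑ j ∈ gF.S, (⟨gF.P j (w : F), by
        rw [LinearMap.mem_ker, ← pi_P π hd, LinearMap.mem_ker.1 w.2, map_zero]⟩ :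
          LinearMap.ker π) : LinearMap.ker π) : F) = ∑ j ∈ gF.S, gF.P j (w : F) := by
      rw [Submodule.coe_sum]
    exact this.trans (gF.sum w)

theorem mem_kerGd {gF : Gd k F} {gY : Gd k Y} (π : F →ₗ[R] Y)
    (hd : ∀ j v, v ∈ gF.pc j → π v ∈ gY.pc j) (j : ℤ) (w : LinearMap.ker π) :
    w ∈ (kerGd π hd).pc j ↔ (w : F) ∈ gF.pc j := Iff.rfl

theorem kerGd_compat {gF : Gd k F} {gY : Gd k Y} (π : F →ₗ[R] Y)
    (hd : ∀ j v, v ∈ gF.pc j → π v ∈ gY.pc j) (hF : Compat gR gF) : Compat gR (kerGd π hd) :=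
  fun i j r w hr hw => hF i j r w hr hw

/-- dimensions of the pieces are additive -/
theorem finrank_pc_add {gF : Gd k F} {gY : Gd k Y} (π : F →ₗ[R] Y) (hπ : Function.Surjective π)
    (hd : ∀ j v, v ∈ gF.pc j → π v ∈ gY.pc j) [Module.Finite k F] (j : ℤ) :
    finrank k ((kerGd π hd).pc j) + finrank k (gY.pc j) = finrank k (gF.pc j) := by
  let i : ((kerGd π hd).pc j) →ₗ[k] (gF.pc j) :=
    { toFun := fun w => ⟨(w.1 : F), w.2⟩
      map_add' := fun a b => rfl
      map_smul' := fun c a => rfl }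
  let p : (gF.pc j) →ₗ[k] (gY.pc j) :=
    { toFun := fun v => ⟨π v.1, hd j _ v.2⟩
      map_add' := fun a b => by ext1; simp
      map_smul' := fun c a => by
        ext1
        exact (π.restrictScalars k).map_smul c a.1 }
  refine finrank_of_exact i p ?_ ?_ ?_
  · intro a b hab
    have h1 : ((a.1 : LinearMap.ker π) : F) = ((b.1 : LinearMap.ker π) : F) :=
      congrArg (fun t : gF.pc j => (t : F)) hab
    exact Subtype.ext (Subtype.ext h1)
  · rintro ⟨y, hy⟩
    obtain ⟨v, rfl⟩ := hπ y
    refine ⟨⟨gF.P j v, gF.mem j v⟩, ?_⟩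
    ext1
    exact (pi_P π hd j v).symm.trans (gY.fix _ _ hy)
  · rintro ⟨v, hv⟩
    constructor
    · intro h
      have h1 : π v = 0 := congrArg (fun t : gY.pc j => (t : Y)) h
      exact ⟨⟨⟨v, LinearMap.mem_ker.2 h1⟩, hv⟩, rfl⟩
    · rintro ⟨a, ha⟩
      have h1 : ((a.1 : LinearMap.ker π) : F) = v := congrArg (fun t : gF.pc j => (t : F)) ha
      ext1
      change π v = 0
      rw [← h1]
      exact LinearMap.mem_ker.1 a.1.2

/-- dimensions of the spaces of homogeneous maps are additive when maps extend -/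
theorem finrank_HomQ_add {gF : Gd k F} {gY : Gd k Y} {gX : Gd k X} (hF : Compat gR gF)
    (hX : Compat gR gX) (π : F →ₗ[R] Y) (hπ : Function.Surjective π)
    (hd : ∀ j v, v ∈ gF.pc j → π v ∈ gY.pc j) [Module.Finite k F] [Module.Finite k X]
    (hext : ∀ f : LinearMap.ker π →ₗ[R] X, ∃ g : F →ₗ[R] X, ∀ v : LinearMap.ker π, g v = f v)
    (q : ℤ) :
    finrank k (HomQ R gY gX q) + finrank k (HomQ R (kerGd π hd) gX q) =
      finrank k (HomQ R gF gX q) := by
  have : Module.Finite k (F →ₗ[R] X) := finite_hom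
  let i : (HomQ R gY gX q) →ₗ[k] (HomQ R gF gX q) :=
    { toFun := fun f => ⟨f.1.comp π, fun j v hv => f.2 j _ (hd j v hv)⟩
      map_add' := fun a b => by ext1; exact LinearMap.add_comp _ _ _
      map_smul' := fun c a => by ext1; exact LinearMap.smul_comp _ _ _ }
  let p : (HomQ R gF gX q) →ₗ[k] (HomQ R (kerGd π hd) gX q) :=
    { toFun := fun f => ⟨f.1.comp (LinearMap.ker π).subtype, fun j w hw => f.2 j _ hw⟩
      map_add' := fun a b => by ext1; exact LinearMap.add_comp _ _ _
      map_smul' := fun c a => by ext1; exact LinearMap.smul_comp _ _ _ }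
  refine finrank_of_exact i p ?_ ?_ ?_
  · intro a b hab
    ext1
    have h1 : a.1.comp π = b.1.comp π := congrArg (fun t : HomQ R gF gX q => t.1) hab
    exact (LinearMap.cancel_right hπ).1 h1
  · rintro ⟨f, hf⟩
    obtain ⟨g, hg⟩ := hext f
    refine ⟨⟨hc gF gX hF hX q g, fun j v hv => ?_⟩, ?_⟩
    · rw [hc_apply gF gX hF hX q g hv]
      exact gX.mem _ _
    · ext1
      apply LinearMap.ext
      intro w
      change hc gF gX hF hX q g (w : F) = f w
      have h1 : ∀ l, hc gF gX hF hX q g (((kerGd π hd).P l w : LinearMap.ker π) : F) =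
          f ((kerGd π hd).P l w) := by
        intro l
        have hw : (((kerGd π hd).P l w : LinearMap.ker π) : F) ∈ gF.pc l := (kerGd π hd).mem l w
        rw [hc_apply gF gX hF hX q g hw, hg, gX.fix _ _ (hf l _ hw)]
      conv_lhs => rw [← (kerGd π hd).sum w]
      conv_rhs => rw [← (kerGd π hd).sum w]
      rw [Submodule.coe_sum, map_sum, map_sum]
      exact Finset.sum_congr rfl fun l _ => h1 l
  · rintro ⟨f, hf⟩
    constructor
    · intro h
      have h1 : ∀ w : LinearMap.ker π, f (w : F) = 0 := fun w =>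
        congrArg (fun t : HomQ R (kerGd π hd) gX q => t.1 w) h
      obtain ⟨f', hf'⟩ : ∃ f' : Y →ₗ[R] X, f'.comp π = f := by
        let e := π.quotKerEquivOfSurjective hπ
        refine ⟨((LinearMap.ker π).liftQ f (fun v hv => h1 ⟨v, hv⟩)).comp e.symm.toLinearMap, ?_⟩
        apply LinearMap.ext
        intro v
        have : e.symm (π v) = Submodule.Quotient.mk v := by
          rw [LinearEquiv.symm_apply_eq]
          rfl
        rw [LinearMap.comp_apply, LinearMap.comp_apply, LinearEquiv.coe_coe, this]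
        exact Submodule.liftQ_apply _ _ _
      refine ⟨⟨f', fun j y hy => ?_⟩, ?_⟩
      · obtain ⟨v, rfl⟩ := hπ y
        have h2 : π v = π (gF.P j v) := (gY.fix _ _ hy).symm.trans (pi_P π hd j v)
        rw [h2]
        have h3 : f' (π (gF.P j v)) = f (gF.P j v) := LinearMap.congr_fun hf' _
        rw [h3]
        exact hf j _ (gF.mem j v)
      · ext1
        exact hf'
    · rintro ⟨a, ha⟩
      have h1 : a.1.comp π = f := congrArg (fun t : HomQ R gF gX q => t.1) ha
      ext1
      apply LinearMap.ext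
      intro w
      change f (w : F) = 0
      rw [← h1, LinearMap.comp_apply, LinearMap.mem_ker.1 w.2, map_zero]

end ring

end Pool.Agent.Helper35.AR
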