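import Pool.Agent.Helper35.AR.MinCov

set_option autoImplicit false
set_option linter.unusedSectionVars false

open IsLocalRing

namespace Pool.Agent.Helper35.AR

theorem dvd_of_pow_dvd {s b c : ℕ} (hc : c ≠ 0) (hb : b ≠ 0) (h : ∀ n, s ^ n ∣ b ^ n * c) :
    s ∣ b := by
  have hs : s ≠ 0 := by
    rintro rfl
    have := h 1
    simp [hc, hb] at this
  rw [← Nat.factorization_le_iff_dvd hs hb]
  intro p
  by_contra hlt
  rw [not_le] at hlt
  have h1 := (Nat.factorization_le_iff_dvd (pow_ne_zero _ hs)
    (mul_ne_zero (pow_ne_zero _ hb) hc)).2 (h (c.factorization p + 1)) p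
  rw [Nat.factorization_mul (pow_ne_zero _ hb) hc, Nat.factorization_pow, Nat.factorization_pow] at h1
  simp only [Finsupp.coe_add, Finsupp.coe_smul, Pi.add_apply, Pi.smul_apply, smul_eq_mul] at h1
  nlinarith

theorem arith {b s v β : ℕ} (hb : b ≠ 0) (hβ : β ≠ 0) (hdiv : ∀ n, s ^ n ∣ b ^ n * β)
    (h0 : β * s + 1 ≤ b * b) (h2 : b ≤ v * s) (h3 : b * v ≤ β + s) : b = v * s := by
  obtain ⟨e, rfl⟩ := dvd_of_pow_dvd hβ hb hdiv
  have hs : 0 < s := Nat.pos_of_ne_zero fun h => hb (by simp [h])
  have he : 0 < e := Nat.pos_of_ne_zero fun h => hb (by simp [h])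
  have h4 : e ≤ v := by
    by_contra h
    rw [not_le] at h
    nlinarith
  have h5 : v ≤ e := by
    by_contra h
    rw [not_le] at h
    -- e * v ≥ e * e + e
    have h6 : e * e + e ≤ e * v := by nlinarith
    have h7 : s * (s * e * v) ≤ s * (β + s) := Nat.mul_le_mul_left s h3
    have h8 : s * s * (e * e + e) ≤ s * s * (e * v) := Nat.mul_le_mul_left _ h6
    nlinarith
  have : e = v := le_antisymm h4 h5
  subst this
  ring

variable {A : Type} [CommRing A] [IsLocalRing A]

theorem length_le_of_exact {B C D : Type} [AddCommGroup B] [Module A B] [AddCommGroup C]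
    [Module A C] [AddCommGroup D] [Module A D] (i : B →ₗ[A] C) (p : C →ₗ[A] D)
    (hi : Function.Injective i) (hex : Function.Exact i p) :
    Module.length A C ≤ Module.length A B + Module.length A D := by
  have h1 : Function.Exact i p.rangeRestrict := by
    intro c
    constructor
    · intro h
      exact (hex c).1 (congrArg (fun t : LinearMap.range p => (t : D)) h)
    · intro h
      exact Subtype.ext ((hex c).2 h)
  rw [Module.length_eq_add_of_exact i p.rangeRestrict hi (LinearMap.surjective_rangeRestrict p) h1]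
  gcongr
  exact Module.length_le_of_injective (LinearMap.range p).subtype (Submodule.subtype_injective _)

section

variable {X : Type} [AddCommGroup X] [Module A X]

/-- all maps from `Y` to `X` have image in the multiples of the maximal ideal -/
def Star (X Y : Type) [AddCommGroup X] [Module A X] [AddCommGroup Y] [Module A Y] : Prop :=
  ∀ (f : Y →ₗ[A] X) (y : Y), f y ∈ (maximalIdeal A • ⊤ : Submodule A X)

/-- extension property -/
def Extd (X : Type) [AddCommGroup X] [Module A X] {Y : Type} [AddCommGroup Y] [Module A Y] {β : ℕ}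
    (π : (Fin β → A) →ₗ[A] Y) : Prop :=
  ∀ f : LinearMap.ker π →ₗ[A] X, ∃ g : (Fin β → A) →ₗ[A] X, ∀ v : LinearMap.ker π, g v = f v

theorem star_ker {Y : Type} [AddCommGroup Y] [Module A Y] {β : ℕ} {π : (Fin β → A) →ₗ[A] Y}
    (hπ : MinCov π) (hext : Extd X π) : Star (A := A) X (LinearMap.ker π) := by
  intro f w
  obtain ⟨g, hg⟩ := hext f
  rw [← hg w]
  have h1 := hπ.2 w.2
  have h2 : g (w : Fin β → A) ∈ (maximalIdeal A • ⊤ : Submodule A (Fin β → A)).map g :=
    Submodule.mem_map_of_mem h1
  rw [Submodule.map_smul''] at h2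
  exact Submodule.smul_mono le_rfl le_top h2

/-- postcomposition with the inclusion of the multiples of the maximal ideal -/
def incl (X Y : Type) [AddCommGroup X] [Module A X] [AddCommGroup Y] [Module A Y] :
    (Y →ₗ[A] (maximalIdeal A • ⊤ : Submodule A X)) →ₗ[A] (Y →ₗ[A] X) where
  toFun f := (Submodule.subtype _).comp f
  map_add' f g := LinearMap.comp_add _ _ _
  map_smul' c f := LinearMap.comp_smul _ _ _

theorem incl_injective (Y : Type) [AddCommGroup Y] [Module A Y] :
    Function.Injective (incl (A := A) X Y) := by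
  intro f g h
  apply LinearMap.ext
  intro y
  exact Subtype.ext (LinearMap.congr_fun h y)

theorem length_hom_star {Y : Type} [AddCommGroup Y] [Module A Y] (h : Star (A := A) X Y) :
    Module.length A (Y →ₗ[A] X) =
      Module.length A (Y →ₗ[A] (maximalIdeal A • ⊤ : Submodule A X)) := by
  refine (LinearEquiv.ofBijective (incl X Y) ⟨incl_injective Y, fun f => ?_⟩).length_eq.symm
  exact ⟨f.codRestrict _ (h f), LinearMap.ext fun y => rfl⟩

theorem length_hom_free (β : ℕ) :
    Module.length A ((Fin β → A) →ₗ[A] X) = β * Module.length A X := by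
  rw [← ((Pi.basisFun A (Fin β)).constr A).length_eq, Module.length_pi,
    ENat.card_eq_coe_fintype_card, Fintype.card_fin]

theorem length_add {Y : Type} [AddCommGroup Y] [Module A Y] {β : ℕ} {π : (Fin β → A) →ₗ[A] Y}
    (hπ : Function.Surjective π) (hext : Extd X π) :
    Module.length A ((Fin β → A) →ₗ[A] X) = Module.length A (Y →ₗ[A] X) +
      Module.length A (LinearMap.ker π →ₗ[A] X) := by
  refine Module.length_eq_add_of_exact (LinearMap.lcomp A X π)
    (LinearMap.lcomp A X (LinearMap.ker π).subtype) ?_ ?_ ?_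
  · intro f g hfg
    exact (LinearMap.cancel_right hπ).1 hfg
  · intro f
    obtain ⟨g, hg⟩ := hext f
    exact ⟨g, LinearMap.ext fun v => hg v⟩
  · intro f
    constructor
    · intro h
      let e := π.quotKerEquivOfSurjective hπ
      refine ⟨((LinearMap.ker π).liftQ f (fun v hv => LinearMap.congr_fun h ⟨v, hv⟩)).comp
        e.symm.toLinearMap, ?_⟩
      apply LinearMap.ext
      intro v
      have : e.symm (π v) = Submodule.Quotient.mk v := by
        rw [LinearEquiv.symm_apply_eq]
        rfl
      rw [LinearMap.lcomp_apply, LinearMap.comp_apply, LinearEquiv.coe_coe, this]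
      exact Submodule.liftQ_apply _ _ _
    · rintro ⟨g, rfl⟩
      apply LinearMap.ext
      intro v
      change g (π v) = 0
      rw [LinearMap.mem_ker.1 v.2, map_zero]

theorem killed_sub (hX2 : ∀ a ∈ maximalIdeal A, ∀ b ∈ maximalIdeal A, ∀ x : X, (a * b) • x = 0) :
    Killed (A := A) (maximalIdeal A • ⊤ : Submodule A X) := by
  rintro a ha ⟨w, hw⟩
  ext1
  change a • w = 0
  refine Submodule.smul_induction_on (p := fun w => a • w = 0) hw ?_ ?_
  · intro r hr x _
    rw [smul_smul]
    exact hX2 a ha r hr x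
  · intro x y hx hy
    rw [smul_add, hx, hy, add_zero]

theorem killed_quot : Killed (A := A) (X ⧸ (maximalIdeal A • ⊤ : Submodule A X)) := by
  intro a ha w
  obtain ⟨w, rfl⟩ := Submodule.Quotient.mk_surjective _ w
  rw [← Submodule.Quotient.mk_smul, Submodule.Quotient.mk_eq_zero]
  exact Submodule.smul_mem_smul ha trivial

theorem minCov_quot {β : ℕ} {π : (Fin β → A) →ₗ[A] X} (hπ : MinCov π) :
    MinCov ((maximalIdeal A • ⊤ : Submodule A X).mkQ.comp π) := by
  refine ⟨(Submodule.mkQ_surjective _).comp hπ.1, ?_⟩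
  intro v hv
  rw [LinearMap.mem_ker, LinearMap.comp_apply, Submodule.mkQ_apply,
    Submodule.Quotient.mk_eq_zero] at hv
  have h1 : (maximalIdeal A • ⊤ : Submodule A X) =
      (maximalIdeal A • ⊤ : Submodule A (Fin β → A)).map π := by
    rw [Submodule.map_smul'', Submodule.map_top, LinearMap.range_eq_top.2 hπ.1]
  rw [h1] at hv
  obtain ⟨u, hu, hu2⟩ := hv
  have h2 : v - u ∈ LinearMap.ker π := by
    rw [LinearMap.mem_ker, map_sub, hu2, sub_self]
  have h3 : v = u + (v - u) := by abel
  rw [h3]
  exact Submodule.add_mem _ hu (hπ.2 h2)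

theorem length_X {b s : ℕ} (hb : Module.length A (X ⧸ (maximalIdeal A • ⊤ : Submodule A X)) = b)
    (hs : Module.length A (maximalIdeal A • ⊤ : Submodule A X) = s) :
    Module.length A X = s + b := by
  rw [Module.length_eq_add_of_exact (maximalIdeal A • ⊤ : Submodule A X).subtype
    (maximalIdeal A • ⊤ : Submodule A X).mkQ (Submodule.subtype_injective _)
    (Submodule.mkQ_surjective _) (LinearMap.exact_subtype_mkQ _), hb, hs]

theorem rel_next {b s : ℕ}
    (hX2 : ∀ a ∈ maximalIdeal A, ∀ b ∈ maximalIdeal A, ∀ x : X, (a * b) • x = 0)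
    (hb : Module.length A (X ⧸ (maximalIdeal A • ⊤ : Submodule A X)) = b)
    (hs : Module.length A (maximalIdeal A • ⊤ : Submodule A X) = s)
    {Y : Type} [AddCommGroup Y] [Module A Y] {β β' : ℕ} {π : (Fin β → A) →ₗ[A] Y}
    (hπ : MinCov π) (hext : Extd X π) (hstar : Star (A := A) X Y)
    {π' : (Fin β' → A) →ₗ[A] LinearMap.ker π} (hπ' : MinCov π') : β * b = β' * s := by
  have h1 := length_add hπ.1 hext
  rw [length_hom_free, length_X hb hs, length_hom_star hstar, length_hom_star (star_ker hπ hext),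
    length_hom (killed_sub hX2) hπ, length_hom (killed_sub hX2) hπ', hs] at h1
  have h2 : β * (s + b) = β * s + β' * s := by exact_mod_cast h1
  nlinarith

theorem pow_dvd [IsNoetherianRing A] {b s : ℕ}
    (hX2 : ∀ a ∈ maximalIdeal A, ∀ b ∈ maximalIdeal A, ∀ x : X, (a * b) • x = 0)
    (hb : Module.length A (X ⧸ (maximalIdeal A • ⊤ : Submodule A X)) = b)
    (hs : Module.length A (maximalIdeal A • ⊤ : Submodule A X) = s) (n : ℕ) :
    ∀ (Y : Type) [AddCommGroup Y] [Module A Y], (∀ m, EV A X m Y) → Star (A := A) X Y →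
      ∀ (β : ℕ) (π : (Fin β → A) →ₗ[A] Y), MinCov π → s ^ n ∣ b ^ n * β := by
  induction n with
  | zero => intro Y _ _ _ _ β π _; simp
  | succ n ih =>
    intro Y _ _ hev hstar β π hπ
    have hext : Extd X π := ((hev 1) β π hπ.1).1
    obtain ⟨β', π', hπ'⟩ := exists_minCov (A := A) (LinearMap.ker π)
    have h1 := rel_next hX2 hb hs hπ hext hstar hπ'
    have h2 := ih (LinearMap.ker π) (fun m => ((hev (m + 1)) β π hπ.1).2) (star_ker hπ hext) β' π' hπ'
    have h3 : b ^ (n + 1) * β = b ^ n * β' * s := by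
      rw [pow_succ, mul_assoc, mul_comm b β, h1]
      ring
    rw [h3, pow_succ]
    exact Nat.mul_dvd_mul h2 dvd_rfl

theorem rel_zero {b s : ℕ}
    (hX2 : ∀ a ∈ maximalIdeal A, ∀ b ∈ maximalIdeal A, ∀ x : X, (a * b) • x = 0)
    (hb : Module.length A (X ⧸ (maximalIdeal A • ⊤ : Submodule A X)) = b) (hb0 : b ≠ 0)
    (hs : Module.length A (maximalIdeal A • ⊤ : Submodule A X) = s)
    {π : (Fin b → A) →ₗ[A] X} (hπ : MinCov π) (hext : Extd X π) {β' : ℕ}
    {π' : (Fin β' → A) →ₗ[A] LinearMap.ker π} (hπ' : MinCov π') : β' * s + 1 ≤ b * b := by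
  have h1 := length_add hπ.1 hext
  rw [length_hom_free, length_X hb hs, length_hom_star (star_ker hπ hext),
    length_hom (killed_sub hX2) hπ', hs] at h1
  have h2 : (b : ℕ∞) * s + 1 ≤ Module.length A (X →ₗ[A] X) := by
    rw [Module.length_eq_add_of_exact (incl (A := A) X X) (LinearMap.range (incl X X)).mkQ
      (incl_injective X) (Submodule.mkQ_surjective _) (LinearMap.exact_map_mkQ_range _),
      length_hom (killed_sub hX2) hπ, hs]
    gcongr
    rw [Order.one_le_iff_pos, Module.length_pos_iff, Submodule.Quotient.nontrivial_iff]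
    intro htop
    have h3 : (LinearMap.id : X →ₗ[A] X) ∈ LinearMap.range (incl (A := A) X X) := by
      rw [htop]; trivial
    obtain ⟨f, hf⟩ := h3
    have h4 : (maximalIdeal A • ⊤ : Submodule A X) = ⊤ := by
      rw [eq_top_iff]
      intro x _
      have h5 : x = ((f x : (maximalIdeal A • ⊤ : Submodule A X)) : X) :=
        (LinearMap.congr_fun hf x).symm
      rw [h5]
      exact (f x).2
    have h6 : Subsingleton (X ⧸ (maximalIdeal A • ⊤ : Submodule A X)) := by
      rw [h4]
      infer_instance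
    rw [Module.length_eq_zero] at hb
    exact hb0 (by exact_mod_cast hb.symm)
  have h7 : (b : ℕ∞) * s + 1 + β' * s ≤ b * (s + b) := by
    rw [h1]
    gcongr
  have h8 : b * s + 1 + β' * s ≤ b * (s + b) := by exact_mod_cast h7
  nlinarith

end

end Pool.Agent.Helper35.AR
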