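import Pool.Agent.Helper35.AR.Loewy

set_option autoImplicit false
set_option linter.unusedSectionVars false
set_option linter.unusedVariables false

open IsLocalRing

namespace Pool.Agent.Helper35.AR

variable {A : Type} [CommRing A] [IsLocalRing A]

/-- the map from the residue field determined by an element killed by the maximal ideal -/
noncomputable def ofKilled {X : Type} [AddCommGroup X] [Module A X] (x : X)
    (hx : ∀ a ∈ maximalIdeal A, a • x = 0) : (A ⧸ maximalIdeal A) →ₗ[A] X :=
  (maximalIdeal A).liftQ (LinearMap.toSpanSingleton A X x) (fun a ha => hx a ha)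

theorem ofKilled_mk {X : Type} [AddCommGroup X] [Module A X] (x : X)
    (hx : ∀ a ∈ maximalIdeal A, a • x = 0) (a : A) :
    ofKilled x hx (Submodule.Quotient.mk a) = a • x := rfl

theorem ofKilled_injective {X : Type} [AddCommGroup X] [Module A X] (x : X)
    (hx : ∀ a ∈ maximalIdeal A, a • x = 0) (hx0 : x ≠ 0) :
    Function.Injective (ofKilled x hx) := by
  rw [injective_iff_map_eq_zero]
  intro c hc
  obtain ⟨a, rfl⟩ := Submodule.Quotient.mk_surjective _ c
  rw [ofKilled_mk] at hc
  rw [Submodule.Quotient.mk_eq_zero]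
  by_contra h
  have hu : IsUnit a := by
    by_contra h2
    exact h ((mem_maximalIdeal a).2 h2)
  exact hx0 ((hu.smul_eq_zero).1 hc)

/-- a functional to the residue field not vanishing at a given element outside the multiples of the
maximal ideal -/
theorem exists_functional {Y : Type} [AddCommGroup Y] [Module A Y] (y : Y)
    (hy : y ∉ (maximalIdeal A • ⊤ : Submodule A Y)) :
    ∃ φ : Y →ₗ[A] (A ⧸ maximalIdeal A), φ y ≠ 0 := by
  let _ : Field (A ⧸ maximalIdeal A) := Ideal.Quotient.field _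
  let V := Y ⧸ (maximalIdeal A • ⊤ : Submodule A Y)
  have h1 : (Submodule.Quotient.mk y : V) ≠ 0 := by
    rw [Ne, Submodule.Quotient.mk_eq_zero]
    exact hy
  have h2 : ∃ φ : V →ₗ[A ⧸ maximalIdeal A] (A ⧸ maximalIdeal A),
      φ (Submodule.Quotient.mk y) ≠ 0 := by
    by_contra h
    push Not at h
    exact h1 ((Module.forall_dual_apply_eq_zero_iff (A ⧸ maximalIdeal A) _).1 h)
  obtain ⟨φ, hφ⟩ := h2
  exact ⟨(φ.restrictScalars A).comp (Submodule.mkQ _), hφ⟩

theorem exists_not_mem {Y : Type} [AddCommGroup Y] [Module A Y] [Module.Finite A Y]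
    [Nontrivial Y] : ∃ y : Y, y ∉ (maximalIdeal A • ⊤ : Submodule A Y) := by
  by_contra h
  push Not at h
  have h1 : (⊤ : Submodule A Y) ≤ maximalIdeal A • ⊤ := fun y _ => h y
  have h2 := Submodule.eq_bot_of_le_smul_of_le_jacobson_bot (maximalIdeal A) ⊤
      Module.Finite.fg_top h1 (by rw [IsLocalRing.jacobson_eq_maximalIdeal _ bot_ne_top])
  exact bot_ne_top h2.symm

variable {X : Type} [AddCommGroup X] [Module A X]

/-- Elements killed by the maximal ideal are multiples. -/
theorem mem_of_killed {Y : Type} [AddCommGroup Y] [Module A Y] [Module.Finite A Y] [Nontrivial Y]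
    (hstar : Star (A := A) X Y) (x : X) (hx : ∀ a ∈ maximalIdeal A, a • x = 0) :
    x ∈ (maximalIdeal A • ⊤ : Submodule A X) := by
  obtain ⟨y, hy⟩ := exists_not_mem (A := A) (Y := Y)
  obtain ⟨φ, hφ⟩ := exists_functional y hy
  have h1 := hstar ((ofKilled x hx).comp φ) y
  obtain ⟨a, ha⟩ := Submodule.Quotient.mk_surjective _ (φ y)
  rw [LinearMap.comp_apply, ← ha, ofKilled_mk] at h1
  have hu : IsUnit a := by
    by_contra h2
    apply hφ
    rw [← ha, Submodule.Quotient.mk_eq_zero]
    exact (mem_maximalIdeal a).2 h2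
  obtain ⟨u, rfl⟩ := hu
  have h2 := Submodule.smul_mem _ (↑u⁻¹ : A) h1
  rwa [smul_smul, Units.inv_mul, one_smul] at h2

/-- the multiplication map -/
def psi (X : Type) [AddCommGroup X] [Module A X] :
    X →ₗ[A] (maximalIdeal A →ₗ[A] (maximalIdeal A • ⊤ : Submodule A X)) where
  toFun x :=
    { toFun := fun a => ⟨(a : A) • x, Submodule.smul_mem_smul a.2 trivial⟩
      map_add' := fun a b => by ext1; exact add_smul _ _ _
      map_smul' := fun c a => by
        ext1
        change (c • (a : A)) • x = c • ((a : A) • x)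
        rw [smul_assoc] }
  map_add' x y := by
    ext a
    change (a : A) • (x + y) = (a : A) • x + (a : A) • y
    rw [smul_add]
  map_smul' c x := by
    ext a
    change (a : A) • (c • x) = c • ((a : A) • x)
    rw [smul_comm]

theorem psi_ker (hX2 : ∀ a ∈ maximalIdeal A, ∀ b ∈ maximalIdeal A, ∀ x : X, (a * b) • x = 0)
    (hsoc : ∀ x : X, (∀ a ∈ maximalIdeal A, a • x = 0) →
      x ∈ (maximalIdeal A • ⊤ : Submodule A X)) :
    LinearMap.ker (psi (A := A) X) = maximalIdeal A • ⊤ := by
  ext x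
  constructor
  · intro hx
    apply hsoc
    intro a ha
    exact congrArg (fun t : (maximalIdeal A • ⊤ : Submodule A X) => (t : X))
      (LinearMap.congr_fun hx ⟨a, ha⟩)
  · intro hx
    rw [LinearMap.mem_ker]
    ext a
    exact congrArg (fun t : (maximalIdeal A • ⊤ : Submodule A X) => (t : X))
      (killed_sub hX2 a a.2 ⟨x, hx⟩)

/-- the induced injection -/
noncomputable def psiBar
    (hX2 : ∀ a ∈ maximalIdeal A, ∀ b ∈ maximalIdeal A, ∀ x : X, (a * b) • x = 0)
    (hsoc : ∀ x : X, (∀ a ∈ maximalIdeal A, a • x = 0) →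
      x ∈ (maximalIdeal A • ⊤ : Submodule A X)) :
    (X ⧸ (maximalIdeal A • ⊤ : Submodule A X)) →ₗ[A]
      (maximalIdeal A →ₗ[A] (maximalIdeal A • ⊤ : Submodule A X)) :=
  (maximalIdeal A • ⊤ : Submodule A X).liftQ (psi X) (psi_ker hX2 hsoc).ge

theorem psiBar_injective
    (hX2 : ∀ a ∈ maximalIdeal A, ∀ b ∈ maximalIdeal A, ∀ x : X, (a * b) • x = 0)
    (hsoc : ∀ x : X, (∀ a ∈ maximalIdeal A, a • x = 0) →
      x ∈ (maximalIdeal A • ⊤ : Submodule A X)) : Function.Injective (psiBar hX2 hsoc) := by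
  rw [← LinearMap.ker_eq_bot, psiBar, Submodule.ker_liftQ_eq_bot']
  exact (psi_ker hX2 hsoc).symm

theorem ineq_two {b s v : ℕ}
    (hX2 : ∀ a ∈ maximalIdeal A, ∀ b ∈ maximalIdeal A, ∀ x : X, (a * b) • x = 0)
    (hsoc : ∀ x : X, (∀ a ∈ maximalIdeal A, a • x = 0) →
      x ∈ (maximalIdeal A • ⊤ : Submodule A X))
    (hb : Module.length A (X ⧸ (maximalIdeal A • ⊤ : Submodule A X)) = b)
    (hs : Module.length A (maximalIdeal A • ⊤ : Submodule A X) = s)
    {μ : (Fin v → A) →ₗ[A] maximalIdeal A} (hμ : MinCov μ) : b ≤ v * s := by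
  have h1 := Module.length_le_of_injective _ (psiBar_injective hX2 hsoc)
  rw [hb, length_hom (killed_sub hX2) hμ, hs] at h1
  exact_mod_cast h1

theorem enat_cancel {n : ℕ} {L : ℕ∞} (h : (n : ℕ∞) = n + L) : L = 0 := by
  cases L using ENat.recTopCoe with
  | top => simp at h
  | coe m =>
    have h1 : n = n + m := by exact_mod_cast h
    have h2 : m = 0 := by omega
    simp [h2]

/-- when the numbers agree the multiplication map is onto -/
theorem psi_surjective {b s v : ℕ}
    (hX2 : ∀ a ∈ maximalIdeal A, ∀ b ∈ maximalIdeal A, ∀ x : X, (a * b) • x = 0)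
    (hsoc : ∀ x : X, (∀ a ∈ maximalIdeal A, a • x = 0) →
      x ∈ (maximalIdeal A • ⊤ : Submodule A X))
    (hb : Module.length A (X ⧸ (maximalIdeal A • ⊤ : Submodule A X)) = b)
    (hs : Module.length A (maximalIdeal A • ⊤ : Submodule A X) = s)
    {μ : (Fin v → A) →ₗ[A] maximalIdeal A} (hμ : MinCov μ) (heq : b = v * s) :
    Function.Surjective (psi (A := A) X) := by
  have h1 := Module.length_eq_add_of_exact (psiBar hX2 hsoc)
    (LinearMap.range (psiBar hX2 hsoc)).mkQ (psiBar_injective hX2 hsoc)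
    (Submodule.mkQ_surjective _) (LinearMap.exact_map_mkQ_range _)
  rw [hb, length_hom (killed_sub hX2) hμ, hs, heq] at h1
  have h2 : Module.length A (_ ⧸ LinearMap.range (psiBar hX2 hsoc)) = 0 := by
    apply enat_cancel (n := v * s)
    rw [← h1]
    push_cast
    rfl
  rw [Module.length_eq_zero_iff, Submodule.Quotient.subsingleton_iff] at h2
  intro f
  have h4 : f ∈ LinearMap.range (psiBar hX2 hsoc) := by
    rw [h2]; trivial
  obtain ⟨x, hx⟩ := h4
  obtain ⟨x, rfl⟩ := Submodule.Quotient.mk_surjective _ x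
  exact ⟨x, hx⟩

end Pool.Agent.Helper35.AR
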