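import Pool.Agent.Helper35.AR.Loewy2

set_option autoImplicit false
set_option linter.unusedSectionVars false
set_option linter.unusedVariables false

open IsLocalRing

namespace Pool.Agent.Helper35.AR

variable {A : Type} [CommRing A] [IsLocalRing A]
variable {X : Type} [AddCommGroup X] [Module A X]

/-- the cover restricted to the multiples of the maximal ideal -/
def pMap {b : ℕ} (π : (Fin b → A) →ₗ[A] X) :
    (Fin b → maximalIdeal A) →ₗ[A] (maximalIdeal A • ⊤ : Submodule A X) where
  toFun v := ⟨π (fun i => (v i : A)), by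
    have h1 : (fun i => (v i : A)) ∈ (maximalIdeal A • ⊤ : Submodule A (Fin b → A)) :=
      (mem_smul_top_iff _ _).2 fun i => (v i).2
    have h2 := Submodule.mem_map_of_mem (f := π) h1
    rw [Submodule.map_smul''] at h2
    exact Submodule.smul_mono le_rfl le_top h2⟩
  map_add' v w := by
    ext1
    exact π.map_add (fun i => (v i : A)) (fun i => (w i : A))
  map_smul' c v := by
    ext1
    exact π.map_smul c (fun i => (v i : A))

theorem pMap_surjective {b : ℕ} {π : (Fin b → A) →ₗ[A] X} (hπ : MinCov π) :
    Function.Surjective (pMap π) := by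
  rintro ⟨x, hx⟩
  have h1 : (maximalIdeal A • ⊤ : Submodule A X) =
      (maximalIdeal A • ⊤ : Submodule A (Fin b → A)).map π := by
    rw [Submodule.map_smul'', Submodule.map_top, LinearMap.range_eq_top.2 hπ.1]
  rw [h1] at hx
  obtain ⟨u, hu, hu2⟩ := hx
  rw [SetLike.mem_coe, mem_smul_top_iff] at hu
  exact ⟨fun i => ⟨u i, hu i⟩, Subtype.ext hu2⟩

/-- the kernel of a minimal cover as a submodule of a power of the maximal ideal -/
def iMap {b : ℕ} {π : (Fin b → A) →ₗ[A] X} (hπ : MinCov π) :
    LinearMap.ker π →ₗ[A] (Fin b → maximalIdeal A) where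
  toFun w := fun i => ⟨(w : Fin b → A) i, (mem_smul_top_iff _ _).1 (hπ.2 w.2) i⟩
  map_add' v w := rfl
  map_smul' c v := rfl

theorem ineq_three [IsNoetherianRing A] [Module.Finite A X] {b s v β : ℕ}
    (hX2 : ∀ a ∈ maximalIdeal A, ∀ b ∈ maximalIdeal A, ∀ x : X, (a * b) • x = 0)
    (hs : Module.length A (maximalIdeal A • ⊤ : Submodule A X) = s)
    {μ : (Fin v → A) →ₗ[A] maximalIdeal A} (hμ : MinCov μ)
    {π : (Fin b → A) →ₗ[A] X} (hπ : MinCov π)
    {π' : (Fin β → A) →ₗ[A] LinearMap.ker π} (hπ' : MinCov π') : b * v ≤ β + s := by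
  have h1 := length_le_of_exact (LinearMap.lcomp A (A ⧸ maximalIdeal A) (pMap π))
    (LinearMap.lcomp A (A ⧸ maximalIdeal A) (iMap hπ))
    (fun f g hfg => (LinearMap.cancel_right (pMap_surjective hπ)).1 hfg) (by
      intro f
      constructor
      · intro h
        have hk : LinearMap.ker (pMap π) ≤ LinearMap.ker f := by
          intro v hv
          have h2 : π (fun i => (v i : A)) = 0 :=
            congrArg (fun t : (maximalIdeal A • ⊤ : Submodule A X) => (t : X)) hv
          exact LinearMap.congr_fun h ⟨fun i => (v i : A), h2⟩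
        let e := (pMap π).quotKerEquivOfSurjective (pMap_surjective hπ)
        refine ⟨((LinearMap.ker (pMap π)).liftQ f hk).comp e.symm.toLinearMap, ?_⟩
        apply LinearMap.ext
        intro v
        have : e.symm (pMap π v) = Submodule.Quotient.mk v := by
          rw [LinearEquiv.symm_apply_eq]
          rfl
        rw [LinearMap.lcomp_apply, LinearMap.comp_apply, LinearEquiv.coe_coe, this]
        exact Submodule.liftQ_apply _ _ _
      · rintro ⟨g, rfl⟩
        apply LinearMap.ext
        intro w
        change g (pMap π (iMap hπ w)) = 0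
        have h3 : pMap π (iMap hπ w) = 0 := Subtype.ext (LinearMap.mem_ker.1 w.2)
        rw [h3, map_zero])
  obtain ⟨γ, πS, hπS⟩ := exists_minCov (A := A) (maximalIdeal A • ⊤ : Submodule A X)
  have h2 := length_of_killed (killed_sub hX2) hπS
  rw [hs] at h2
  have h3 : s = γ := by exact_mod_cast h2
  subst h3
  rw [length_hom killed_residue hπS, length_hom killed_residue hπ', length_residue,
    ← (LinearMap.lsum A (fun _ : Fin b => maximalIdeal A) A).length_eq, Module.length_pi,
    ENat.card_eq_coe_fintype_card, Fintype.card_fin, length_hom killed_residue hμ,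
    length_residue] at h1
  have h4 : b * (v * 1) ≤ s * 1 + β * 1 := by exact_mod_cast h1
  simp only [mul_one] at h4
  omega

/-- The final contradiction. -/
theorem final_step [IsNoetherianRing A] [Module.Finite A X] [Nontrivial X]
    (hX2 : ∀ a ∈ maximalIdeal A, ∀ b ∈ maximalIdeal A, ∀ x : X, (a * b) • x = 0)
    (hm2 : ∃ a ∈ maximalIdeal A, ∃ b ∈ maximalIdeal A, a * b ≠ 0) {b : ℕ}
    {π : (Fin b → A) →ₗ[A] X} (hπ : MinCov π) (hext : Extd X π)
    (hsurj : Function.Surjective (psi (A := A) X))
    (hSX : Nontrivial (maximalIdeal A • ⊤ : Submodule A X)) : False := by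
  obtain ⟨x₀, hx₀⟩ := exists_ne (0 : (maximalIdeal A • ⊤ : Submodule A X))
  have hstar := star_ker hπ hext
  have hxk : ∀ a ∈ maximalIdeal A, a • (x₀ : X) = 0 := fun a ha =>
    congrArg (fun t : (maximalIdeal A • ⊤ : Submodule A X) => (t : X)) (killed_sub hX2 a ha x₀)
  have hx0 : (x₀ : X) ≠ 0 := fun h => hx₀ (Subtype.ext h)
  have hx0S : ∀ c, ofKilled (x₀ : X) hxk c ∈ (maximalIdeal A • ⊤ : Submodule A X) := by
    intro c
    obtain ⟨a, rfl⟩ := Submodule.Quotient.mk_surjective _ c
    rw [ofKilled_mk]
    exact Submodule.smul_mem _ _ x₀.2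
  have hb : 0 < b := by
    by_contra h
    have h0 : b = 0 := by omega
    subst h0
    obtain ⟨x, hx⟩ := exists_ne (0 : X)
    obtain ⟨v, hv⟩ := hπ.1 x
    apply hx
    rw [← hv, Subsingleton.elim v 0, map_zero]
  -- elements of the square of the maximal ideal times the free module are in the kernel
  have hker : ∀ a ∈ maximalIdeal A, ∀ c ∈ maximalIdeal A, ∀ v : Fin b → A,
      (a * c) • v ∈ LinearMap.ker π := by
    intro a ha c hc v
    rw [LinearMap.mem_ker, map_smul]
    exact hX2 a ha c hc _
  by_cases hcase : ∀ a (ha : a ∈ maximalIdeal A) c (hc : c ∈ maximalIdeal A) (v : Fin b → A),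
      (⟨(a * c) • v, hker a ha c hc v⟩ : LinearMap.ker π) ∈
        (maximalIdeal A • ⊤ : Submodule A (LinearMap.ker π))
  · -- the multiples of the maximal ideal in the kernel
    set K := LinearMap.ker π with hK
    let Q : Submodule A K := maximalIdeal A • ⊤
    have hQ : Nontrivial Q := by
      obtain ⟨a, ha, c, hc, hac⟩ := hm2
      let v : Fin b → A := fun _ => 1
      have h1 := hcase a ha c hc v
      refine ⟨⟨⟨_, h1⟩, 0, fun h => hac ?_⟩⟩
      have h2 : ((a * c) • v : Fin b → A) = 0 :=
        congrArg (fun t : Q => ((t : K) : Fin b → A)) h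
      have h3 := congrFun h2 ⟨0, hb⟩
      simpa [v] using h3
    obtain ⟨q, hq⟩ := exists_not_mem (A := A) (Y := Q)
    obtain ⟨φ, hφ⟩ := exists_functional q hq
    let θ : Q →ₗ[A] X := (ofKilled (x₀ : X) hxk).comp φ
    have hθq : θ q ≠ 0 := by
      intro h
      exact hφ (ofKilled_injective _ hxk hx0 (h.trans (map_zero _).symm))
    have hθS : ∀ u, θ u ∈ (maximalIdeal A • ⊤ : Submodule A X) := fun u => hx0S _
    obtain ⟨β, π', hπ'⟩ := exists_minCov (A := A) K
    -- the values on generators
    have hy : ∀ j : Fin β, ∃ y : X, ∀ a (ha : a ∈ maximalIdeal A),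
        a • y = θ ⟨a • π' (Pi.single j 1), Submodule.smul_mem_smul ha trivial⟩ := by
      intro j
      let h : maximalIdeal A →ₗ[A] (maximalIdeal A • ⊤ : Submodule A X) :=
        { toFun := fun a => ⟨θ ⟨(a : A) • π' (Pi.single j 1),
            Submodule.smul_mem_smul a.2 trivial⟩, hθS _⟩
          map_add' := fun a c => by
            ext1
            change θ _ = θ _ + θ _
            rw [← map_add]
            congr 1
            ext1
            exact add_smul _ _ _
          map_smul' := fun r a => by
            ext1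
            have h1 : (⟨((r • a : maximalIdeal A) : A) • π' (Pi.single j 1),
                Submodule.smul_mem_smul (r • a : maximalIdeal A).2 trivial⟩ : Q) =
                r • ⟨(a : A) • π' (Pi.single j 1), Submodule.smul_mem_smul a.2 trivial⟩ :=
              Subtype.ext (smul_assoc r (a : A) (π' (Pi.single j 1)))
            exact (congrArg θ h1).trans (θ.map_smul r _) }
      obtain ⟨y, hy⟩ := hsurj h
      refine ⟨y, fun a ha => ?_⟩
      exact congrArg (fun t : (maximalIdeal A • ⊤ : Submodule A X) => (t : X))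
        (LinearMap.congr_fun hy ⟨a, ha⟩)
    choose y hy using hy
    -- the map on the kernel
    have hlc : ∀ v : Fin β → A, ∀ hv : v ∈ (maximalIdeal A • ⊤ : Submodule A (Fin β → A)),
        lc y v = θ ⟨π' v, by
          have h2 := Submodule.mem_map_of_mem (f := π') hv
          rw [Submodule.map_smul''] at h2
          exact Submodule.smul_mono le_rfl le_top h2⟩ := by
      intro v hv
      have hv' := (mem_smul_top_iff _ _).1 hv
      rw [lc_apply]
      have h1 : ∀ j, v j • y j =
          θ ⟨v j • π' (Pi.single j 1), Submodule.smul_mem_smul (hv' j) trivial⟩ :=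
        fun j => hy j (v j) (hv' j)
      rw [Finset.sum_congr rfl fun j _ => h1 j, ← map_sum]
      congr 1
      ext1
      rw [Submodule.coe_sum]
      change ∑ j, v j • π' (Pi.single j 1) = π' v
      have h2 : v = ∑ j, v j • (Pi.single j (1 : A) : Fin β → A) := by
        ext j
        simp [Finset.sum_apply, Pi.single_apply]
      conv_rhs => rw [h2, map_sum]
      exact Finset.sum_congr rfl fun j _ => by rw [map_smul]
    have hk : LinearMap.ker π' ≤ LinearMap.ker (lc y : (Fin β → A) →ₗ[A] X) := by
      intro v hv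
      rw [LinearMap.mem_ker, hlc v (hπ'.2 hv)]
      have h1 : π' v = 0 := hv
      have h2 : (⟨π' v, by
          have h2 := Submodule.mem_map_of_mem (f := π') (hπ'.2 hv)
          rw [Submodule.map_smul''] at h2
          exact Submodule.smul_mono le_rfl le_top h2⟩ : Q) = 0 := Subtype.ext h1
      rw [h2, map_zero]
    let e := π'.quotKerEquivOfSurjective hπ'.1
    let f : K →ₗ[A] X := ((LinearMap.ker π').liftQ (lc y) hk).comp e.symm.toLinearMap
    have hf : ∀ v, f (π' v) = lc y v := by
      intro v
      have : e.symm (π' v) = Submodule.Quotient.mk v := by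
        rw [LinearEquiv.symm_apply_eq]
        rfl
      change ((LinearMap.ker π').liftQ (lc y) hk) (e.symm (π' v)) = lc y v
      rw [this]
      exact Submodule.liftQ_apply _ _ _
    -- the value at `q`
    have hq1 : (q : K) ∈ (maximalIdeal A • ⊤ : Submodule A (Fin β → A)).map π' := by
      rw [Submodule.map_smul'', Submodule.map_top, LinearMap.range_eq_top.2 hπ'.1]
      exact q.2
    obtain ⟨v, hv, hv2⟩ := hq1
    have h5 : f (q : K) = θ q := by
      rw [← hv2, hf, hlc v hv]
      congr 1
      exact Subtype.ext hv2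
    have h6 : f (q : K) = 0 := by
      have h7 : ∀ w : K, f w ∈ (maximalIdeal A • ⊤ : Submodule A X) := fun w => hstar f w
      refine Submodule.smul_induction_on (p := fun w => f w = 0) q.2 ?_ ?_
      · intro r hr w _
        rw [map_smul]
        exact congrArg (fun t : (maximalIdeal A • ⊤ : Submodule A X) => (t : X))
          (killed_sub hX2 r hr ⟨f w, h7 w⟩)
      · intro a c ha hc
        rw [map_add, ha, hc, add_zero]
    exact hθq (h5.symm.trans h6)
  · push Not at hcase
    obtain ⟨a, ha, c, hc, v, hu⟩ := hcase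
    obtain ⟨φ, hφ⟩ := exists_functional _ hu
    obtain ⟨g, hg⟩ := hext ((ofKilled (x₀ : X) hxk).comp φ)
    have h1 := hg ⟨(a * c) • v, hker a ha c hc v⟩
    have h2 : g ((a * c) • v) = 0 := by
      rw [map_smul]
      exact hX2 a ha c hc _
    rw [h2] at h1
    exact hφ (ofKilled_injective _ hxk hx0 (h1.symm.trans (map_zero _).symm))

/-- A finitely generated module killed by the square of the maximal ideal, over a local ring with
nonzero square of the maximal ideal, without self extensions, is zero. -/
theorem no_loewy_two [IsNoetherianRing A] [Module.Finite A X]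
    (hX2 : ∀ a ∈ maximalIdeal A, ∀ b ∈ maximalIdeal A, ∀ x : X, (a * b) • x = 0)
    (hm2 : ∃ a ∈ maximalIdeal A, ∃ b ∈ maximalIdeal A, a * b ≠ 0)
    (hev : ∀ n, EV A X n X) : Subsingleton X := by
  by_contra hns
  rw [not_subsingleton_iff_nontrivial] at hns
  obtain ⟨b, π, hπ⟩ := exists_minCov (A := A) X
  have hext : Extd X π := ((hev 1) b π hπ.1).1
  have hb : 0 < b := by
    by_contra h
    have h0 : b = 0 := by omega
    subst h0
    obtain ⟨x, hx⟩ := exists_ne (0 : X)
    obtain ⟨v, hv⟩ := hπ.1 x
    apply hx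
    rw [← hv, Subsingleton.elim v 0, map_zero]
  have hK : Nontrivial (LinearMap.ker π) := by
    obtain ⟨a, ha, c, hc, hac⟩ := hm2
    let v : Fin b → A := fun _ => 1
    refine ⟨⟨⟨(a * c) • v, by rw [LinearMap.mem_ker, map_smul]; exact hX2 a ha c hc _⟩, 0,
      fun h => hac ?_⟩⟩
    have h2 : ((a * c) • v : Fin b → A) = 0 :=
      congrArg (fun t : LinearMap.ker π => (t : Fin b → A)) h
    have h3 := congrFun h2 ⟨0, hb⟩
    simpa [v] using h3
  have hstar := star_ker hπ hext
  have hsoc : ∀ x : X, (∀ a ∈ maximalIdeal A, a • x = 0) →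
      x ∈ (maximalIdeal A • ⊤ : Submodule A X) := fun x hx => mem_of_killed hstar x hx
  have hbl : Module.length A (X ⧸ (maximalIdeal A • ⊤ : Submodule A X)) = b :=
    length_of_killed killed_quot (minCov_quot hπ)
  obtain ⟨s, πS, hπS⟩ := exists_minCov (A := A) (maximalIdeal A • ⊤ : Submodule A X)
  have hsl : Module.length A (maximalIdeal A • ⊤ : Submodule A X) = s :=
    length_of_killed (killed_sub hX2) hπS
  obtain ⟨β, π', hπ'⟩ := exists_minCov (A := A) (LinearMap.ker π)
  obtain ⟨v, μ, hμ⟩ := exists_minCov (A := A) (maximalIdeal A)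
  have hβ : β ≠ 0 := by
    rintro rfl
    obtain ⟨w, hw⟩ := exists_ne (0 : LinearMap.ker π)
    obtain ⟨u, hu⟩ := hπ'.1 w
    apply hw
    rw [← hu, Subsingleton.elim u 0, map_zero]
  have hdiv : ∀ n, s ^ n ∣ b ^ n * β := fun n =>
    pow_dvd hX2 hbl hsl n (LinearMap.ker π) (fun m => ((hev (m + 1)) b π hπ.1).2) hstar β π' hπ'
  have h0 := rel_zero hX2 hbl hb.ne' hsl hπ hext hπ'
  have h2 := ineq_two hX2 hsoc hbl hsl hμ
  have h3 := ineq_three hX2 hsl hμ hπ hπ'
  have heq := arith hb.ne' hβ hdiv h0 h2 h3
  have hsurj := psi_surjective hX2 hsoc hbl hsl hμ heq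
  have hSX : Nontrivial (maximalIdeal A • ⊤ : Submodule A X) := by
    rw [← not_subsingleton_iff_nontrivial, ← Module.length_eq_zero_iff (R := A), hsl]
    intro h
    have h4 : s = 0 := by exact_mod_cast h
    rw [h4, mul_zero] at heq
    exact hb.ne' heq
  exact final_step hX2 hm2 hπ hext hsurj hSX

end Pool.Agent.Helper35.AR
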