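import Pool.Agent.Helper35.AR.Loewy3
import Pool.Agent.Helper35.AR.Core

set_option autoImplicit false
set_option linter.unusedSectionVars false

open CategoryTheory Abelian RingTheory.Sequence IsLocalRing

namespace Pool.Agent.Helper35.AR

/-- over a local ring whose maximal ideal has square zero: a syzygy without self extensions is
zero -/
theorem no_loewy_one {A : Type} [CommRing A] [IsLocalRing A] [IsNoetherianRing A]
    (hm2 : ∀ a ∈ maximalIdeal A, ∀ b ∈ maximalIdeal A, a * b = 0) {b : ℕ}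
    (K : Submodule A (Fin b → A)) (hK : K ≤ maximalIdeal A • ⊤) (hev : EV A K 1 K) :
    Subsingleton K := by
  by_contra hns
  rw [not_subsingleton_iff_nontrivial] at hns
  have hkill : ∀ a ∈ maximalIdeal A, ∀ x : K, a • x = 0 := by
    intro a ha x
    ext1
    ext i
    exact hm2 a ha _ ((mem_smul_top_iff _ _).1 (hK x.2) i)
  obtain ⟨c, π, hπ⟩ := exists_minCov (A := A) K
  obtain ⟨x, hx⟩ := exists_ne (0 : K)
  have hc : 0 < c := by
    by_contra h
    have h0 : c = 0 := by omega
    subst h0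
    obtain ⟨v, hv⟩ := hπ.1 x
    apply hx
    rw [← hv, Subsingleton.elim v 0, map_zero]
  by_cases hL : Nontrivial (LinearMap.ker π)
  · obtain ⟨y, hy⟩ := exists_not_mem (A := A) (Y := LinearMap.ker π)
    obtain ⟨φ, hφ⟩ := exists_functional y hy
    obtain ⟨g, hg⟩ := (hev c π hπ.1).1 ((ofKilled x fun a ha => hkill a ha x).comp φ)
    have h1 := hg y
    have hKi : Killed (A := A) K := hkill
    rw [kills_smul_top hKi g _ (hπ.2 y.2)] at h1
    have h2 : ofKilled x (fun a ha => hkill a ha x) (φ y) = ofKilled x (fun a ha => hkill a ha x) 0 := by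
      rw [map_zero]
      exact h1.symm
    exact hφ (ofKilled_injective x (fun a ha => hkill a ha x) hx h2)
  · rw [not_nontrivial_iff_subsingleton] at hL
    have hm : ∀ a ∈ maximalIdeal A, a = 0 := by
      intro a ha
      have h1 : (a • (fun _ => 1 : Fin c → A)) ∈ LinearMap.ker π := by
        rw [LinearMap.mem_ker, map_smul]
        exact hkill a ha _
      have h2 : (⟨_, h1⟩ : LinearMap.ker π) = 0 := Subsingleton.elim _ _
      have h3 : (a • (fun _ => 1 : Fin c → A)) = 0 :=
        congrArg (fun t : LinearMap.ker π => (t : Fin c → A)) h2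
      have h4 := congrFun h3 ⟨0, hc⟩
      simpa using h4
    apply hx
    ext1
    ext i
    exact hm _ ((mem_smul_top_iff _ _).1 (hK x.2) i)

theorem loewy_core (R : Type) [CommRing R] [IsNoetherianRing R] [IsLocalRing R]
    [HasExt.{0} (ModuleCat.{0} R)]
    (M : Type) [AddCommGroup M] [Module R M] [Module.Finite R M]
    (hMR : ∀ i : ℕ, 0 < i →
      Subsingleton (Abelian.Ext (ModuleCat.of R M) (ModuleCat.of R R) i))
    (hMM : ∀ i : ℕ, 0 < i →
      Subsingleton (Abelian.Ext (ModuleCat.of R M) (ModuleCat.of R M) i))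
    (n : ℕ) (N : Type) [AddCommGroup N] [Module R N] (hN : IsSyz R N n M)
    (rs : List R) (hrs : ∀ r ∈ rs, r ∈ IsLocalRing.maximalIdeal R)
    (hregR : IsWeaklyRegular R rs) (hregN : IsWeaklyRegular N rs)
    (hN2 : (IsLocalRing.maximalIdeal R ^ 2 • ⊤ : Submodule R N) ≤ Ideal.ofList rs • ⊤) :
    Module.Free R M := by
  have hNfin : Module.Finite R N := finite_of_isSyz n M hN
  let A := R ⧸ Ideal.ofList rs
  let X := N ⧸ (Ideal.ofList rs • ⊤ : Submodule R N)
  have hI : Ideal.ofList rs ≤ maximalIdeal R := by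
    rw [Ideal.ofList, Ideal.span_le]
    intro r hr
    exact hrs r hr
  have hAnt : Nontrivial A := Ideal.Quotient.nontrivial_iff.2
    (ne_top_of_le_ne_top (maximalIdeal.isMaximal R).ne_top hI)
  have hAsurj : Function.Surjective (algebraMap R A) := Ideal.Quotient.mk_surjective
  have hAloc : IsLocalRing A := IsLocalRing.of_surjective' (algebraMap R A) hAsurj
  have hAker : RingHom.ker (algebraMap R A) = Ideal.ofList rs := Ideal.mk_ker
  have hmA : ∀ a ∈ maximalIdeal A, ∃ r ∈ maximalIdeal R, algebraMap R A r = a := by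
    intro a ha
    obtain ⟨r, rfl⟩ := hAsurj a
    refine ⟨r, ?_, rfl⟩
    rw [mem_maximalIdeal] at ha ⊢
    intro hr
    exact ha (hr.map (algebraMap R A))
  let ρ : N →ₗ[R] X := Submodule.mkQ _
  have hρ : Function.Surjective ρ := Submodule.mkQ_surjective _
  have hρker : LinearMap.ker ρ = (Ideal.ofList rs • ⊤ : Submodule R N) := Submodule.ker_mkQ _
  have hXfin : Module.Finite A X := Module.Finite.of_restrictScalars_finite R A X
  have hX2 : ∀ a ∈ maximalIdeal A, ∀ b ∈ maximalIdeal A, ∀ x : X, (a * b) • x = 0 := by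
    intro a ha b hb x
    obtain ⟨r, hr, rfl⟩ := hmA a ha
    obtain ⟨t, ht, rfl⟩ := hmA b hb
    obtain ⟨y, rfl⟩ := hρ x
    rw [← map_mul, algebraMap_smul, ← map_smul, ← LinearMap.mem_ker, hρker]
    apply hN2
    refine Submodule.smul_mem_smul ?_ trivial
    rw [pow_two]
    exact Ideal.mul_mem_mul hr ht
  by_cases hm2 : ∃ a ∈ maximalIdeal A, ∃ b ∈ maximalIdeal A, a * b ≠ 0
  · have hev := ev_of_syz M hMR hMM n N hN rs hrs hregR hregN A hAsurj hAker X ρ hρ hρker
    have hsub : Subsingleton X := no_loewy_two hX2 hm2 hev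
    exact free_of_syz M hMR n N hN rs hrs X ρ hρker
  · push Not at hm2
    obtain ⟨b, π', hπ'⟩ := exists_minCov (A := A) X
    obtain ⟨π, hπ, hKreg, ρK, hρK, hkK, hval⟩ :=
      lift_cover hAsurj hAker hrs hregR N hregN X ρ hρ hρker b π' hπ'.1
    have hN' : IsSyz R (LinearMap.ker π) (n + 1) M := isSyz_succ b π hπ n M hN
    have hev := ev_of_syz M hMR hMM (n + 1) (LinearMap.ker π) hN' rs hrs hregR hKreg A hAsurj hAker
      (LinearMap.ker π') ρK hρK hkK 1
    have hsub : Subsingleton (LinearMap.ker π') := no_loewy_one hm2 _ hπ'.2 hev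
    exact free_of_syz M hMR (n + 1) (LinearMap.ker π) hN' rs hrs (LinearMap.ker π') ρK hkK

end Pool.Agent.Helper35.AR
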