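import Pool.Agent.Helper35.AR.RegSeq

set_option autoImplicit false
set_option linter.unusedSectionVars false

open IsLocalRing

namespace Pool.Agent.Helper35.AR

variable {A : Type} [CommRing A] [IsLocalRing A]

/-- A minimal finite free cover. -/
def MinCov {Y : Type} [AddCommGroup Y] [Module A Y] {β : ℕ} (π : (Fin β → A) →ₗ[A] Y) : Prop :=
  Function.Surjective π ∧ LinearMap.ker π ≤ maximalIdeal A • ⊤

theorem mem_smul_top_iff {β : ℕ} (I : Ideal A) (v : Fin β → A) :
    v ∈ (I • ⊤ : Submodule A (Fin β → A)) ↔ ∀ b, v b ∈ I := by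
  constructor
  · intro hv b
    refine Submodule.smul_induction_on (p := fun v => v b ∈ I) hv ?_ ?_
    · intro r hr w _
      exact I.mul_mem_right _ hr
    · intro x y hx hy
      exact I.add_mem hx hy
  · exact mem_smul_top_pi I β v

theorem exists_minCov (Y : Type) [AddCommGroup Y] [Module A Y] [Module.Finite A Y] :
    ∃ (β : ℕ) (π : (Fin β → A) →ₗ[A] Y), MinCov π := by
  classical
  letI : Field (A ⧸ maximalIdeal A) := Ideal.Quotient.field _
  let V := Y ⧸ (maximalIdeal A • ⊤ : Submodule A Y)
  have hfin : Module.Finite (A ⧸ maximalIdeal A) V := Module.Finite.of_restrictScalars_finite A _ _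
  let b := Module.finBasis (A ⧸ maximalIdeal A) V
  choose c hc using fun i => Submodule.Quotient.mk_surjective _ (b i)
  have hmk : ∀ v : Fin (Module.finrank (A ⧸ maximalIdeal A) V) → A,
      (Submodule.Quotient.mk (lc c v) : V) = ∑ i, (Ideal.Quotient.mk (maximalIdeal A) (v i)) • b i := by
    intro v
    rw [lc_apply]
    have : (Submodule.Quotient.mk (∑ i, v i • c i) : V) =
        (maximalIdeal A • ⊤ : Submodule A Y).mkQ (∑ i, v i • c i) := rfl
    rw [this, map_sum]
    refine Finset.sum_congr rfl fun i _ => ?_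
    rw [map_smul, Submodule.mkQ_apply, hc]
    rfl
  refine ⟨_, lc c, ?_, ?_⟩
  · rw [← LinearMap.range_eq_top, ← top_le_iff]
    refine Submodule.le_of_le_smul_of_le_jacobson_bot (I := maximalIdeal A)
      Module.Finite.fg_top ?_ ?_
    · rw [IsLocalRing.jacobson_eq_maximalIdeal _ bot_ne_top]
    · intro u _
      choose a ha using fun i => Ideal.Quotient.mk_surjective (b.repr (Submodule.Quotient.mk u) i)
      have h1 : (Submodule.Quotient.mk (lc c a) : V) = Submodule.Quotient.mk u := by
        rw [hmk]
        conv_rhs => rw [← b.sum_repr (Submodule.Quotient.mk u)]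
        exact Finset.sum_congr rfl fun i _ => by rw [ha]
      have h2 : u - lc c a ∈ (maximalIdeal A • ⊤ : Submodule A Y) := by
        rw [← Submodule.Quotient.mk_eq_zero, Submodule.Quotient.mk_sub, h1, sub_self]
      have h3 : u = lc c a + (u - lc c a) := by abel
      rw [h3]
      exact Submodule.add_mem_sup ⟨a, rfl⟩ h2
  · intro v hv
    rw [mem_smul_top_iff]
    intro i
    have h1 := hmk v
    rw [LinearMap.mem_ker.1 hv, Submodule.Quotient.mk_zero] at h1
    have h2 := Fintype.linearIndependent_iff.1 b.linearIndependent _ h1.symm i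
    exact Ideal.Quotient.eq_zero_iff_mem.1 h2

/-- a module is killed by the maximal ideal -/
def Killed (W : Type) [AddCommGroup W] [Module A W] : Prop := ∀ a ∈ maximalIdeal A, ∀ w : W, a • w = 0

theorem kills_smul_top {Y W : Type} [AddCommGroup Y] [Module A Y] [AddCommGroup W] [Module A W]
    (hW : Killed (A := A) W) (f : Y →ₗ[A] W) (y : Y)
    (hy : y ∈ (maximalIdeal A • ⊤ : Submodule A Y)) : f y = 0 := by
  refine Submodule.smul_induction_on (p := fun y => f y = 0) hy ?_ ?_
  · intro r hr v _
    rw [map_smul]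
    exact hW r hr _
  · intro a b ha hb
    rw [map_add, ha, hb, add_zero]

/-- maps into a module killed by the maximal ideal, through a minimal cover -/
noncomputable def homEquiv {Y W : Type} [AddCommGroup Y] [Module A Y] [AddCommGroup W] [Module A W]
    (hW : Killed (A := A) W) {β : ℕ} {π : (Fin β → A) →ₗ[A] Y} (hπ : MinCov π) :
    (Y →ₗ[A] W) ≃ₗ[A] (Fin β → W) :=
  (LinearEquiv.ofBijective (LinearMap.lcomp A W π) ⟨by
    intro f g hfg
    exact (LinearMap.cancel_right hπ.1).1 hfg, by
    intro f
    let e := π.quotKerEquivOfSurjective hπ.1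
    refine ⟨((LinearMap.ker π).liftQ f (fun v hv => kills_smul_top hW f v (hπ.2 hv))).comp
      e.symm.toLinearMap, ?_⟩
    apply LinearMap.ext
    intro v
    have : e.symm (π v) = Submodule.Quotient.mk v := by
      rw [LinearEquiv.symm_apply_eq]
      rfl
    rw [LinearMap.lcomp_apply, LinearMap.comp_apply, LinearEquiv.coe_coe, this]
    exact Submodule.liftQ_apply _ _ _⟩).trans
  ((Pi.basisFun A (Fin β)).constr A).symm

theorem length_hom {Y W : Type} [AddCommGroup Y] [Module A Y] [AddCommGroup W] [Module A W]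
    (hW : Killed (A := A) W) {β : ℕ} {π : (Fin β → A) →ₗ[A] Y} (hπ : MinCov π) :
    Module.length A (Y →ₗ[A] W) = β * Module.length A W := by
  rw [(homEquiv hW hπ).length_eq, Module.length_pi, ENat.card_eq_coe_fintype_card, Fintype.card_fin]

theorem length_residue : Module.length A (A ⧸ maximalIdeal A) = 1 := by
  rw [Module.length_eq_one_iff]
  exact isSimpleModule_iff_quot_maximal.2 ⟨maximalIdeal A, inferInstance, ⟨LinearEquiv.refl _ _⟩⟩

theorem killed_residue : Killed (A := A) (A ⧸ maximalIdeal A) := by
  intro a ha w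
  obtain ⟨w, rfl⟩ := Ideal.Quotient.mk_surjective w
  rw [← Ideal.Quotient.mkₐ_eq_mk A, ← map_smul, Ideal.Quotient.mkₐ_eq_mk,
    Ideal.Quotient.eq_zero_iff_mem]
  exact Ideal.mul_mem_right _ _ ha

/-- length of a module killed by the maximal ideal -/
theorem length_of_killed {W : Type} [AddCommGroup W] [Module A W]
    (hW : Killed (A := A) W) {β : ℕ} {π : (Fin β → A) →ₗ[A] W} (hπ : MinCov π) :
    Module.length A W = β := by
  let q : (Fin β → A) →ₗ[A] (Fin β → A ⧸ maximalIdeal A) :=
    LinearMap.pi fun b => (Submodule.mkQ (maximalIdeal A)).comp (LinearMap.proj b)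
  have hq : Function.Surjective q := by
    intro v
    choose w hw using fun b => Submodule.mkQ_surjective (maximalIdeal A) (v b)
    exact ⟨w, funext hw⟩
  have hk : LinearMap.ker π = LinearMap.ker q := by
    ext v
    constructor
    · intro hv
      have h1 := (mem_smul_top_iff _ v).1 (hπ.2 hv)
      rw [LinearMap.mem_ker]
      ext b
      exact (Submodule.Quotient.mk_eq_zero _).2 (h1 b)
    · intro hv
      have h1 : v ∈ (maximalIdeal A • ⊤ : Submodule A (Fin β → A)) := by
        rw [mem_smul_top_iff]
        intro b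
        exact (Submodule.Quotient.mk_eq_zero _).1 (congrFun (LinearMap.mem_ker.1 hv) b)
      exact kills_smul_top hW π v h1
  have e : W ≃ₗ[A] (Fin β → A ⧸ maximalIdeal A) :=
    ((π.quotKerEquivOfSurjective hπ.1).symm.trans (Submodule.quotEquivOfEq _ _ hk)).trans
      (q.quotKerEquivOfSurjective hq)
  rw [e.length_eq, Module.length_pi, ENat.card_eq_coe_fintype_card, Fintype.card_fin,
    length_residue, mul_one]

end Pool.Agent.Helper35.AR
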