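import Pool.Agent.Helper35.AR.Theta

set_option autoImplicit false
set_option linter.unusedSectionVars false

open CategoryTheory Abelian RingTheory.Sequence

namespace Pool.Agent.Helper35.AR

section ext

variable {R : Type} [CommRing R] [HasExt.{0} (ModuleCat.{0} R)]

theorem ext_congr {Y X X' : Type} [AddCommGroup Y] [Module R Y] [AddCommGroup X] [Module R X]
    [AddCommGroup X'] [Module R X'] (e : X ≃ₗ[R] X') (i : ℕ)
    (h : Subsingleton (Ext (ModuleCat.of R Y) (ModuleCat.of R X) i)) :
    Subsingleton (Ext (ModuleCat.of R Y) (ModuleCat.of R X') i) := by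
  refine subsingleton_of_forall_eq 0 fun x => ?_
  have hid : 𝟙 (ModuleCat.of R X') = ModuleCat.ofHom e.symm.toLinearMap ≫
      ModuleCat.ofHom e.toLinearMap := by
    ext v
    simp
  rw [← Ext.comp_mk₀_id x, hid, ← Ext.mk₀_comp_mk₀, ← Ext.comp_assoc_of_third_deg_zero]
  rw [Subsingleton.elim (x.comp (Ext.mk₀ (ModuleCat.ofHom e.symm.toLinearMap))
    (add_zero i)) 0, Ext.zero_comp]

theorem ext_congr_left {Y Y' X : Type} [AddCommGroup Y] [Module R Y] [AddCommGroup X] [Module R X]
    [AddCommGroup Y'] [Module R Y'] (e : Y ≃ₗ[R] Y') (i : ℕ)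
    (h : Subsingleton (Ext (ModuleCat.of R Y) (ModuleCat.of R X) i)) :
    Subsingleton (Ext (ModuleCat.of R Y') (ModuleCat.of R X) i) := by
  refine subsingleton_of_forall_eq 0 fun x => ?_
  have hid : 𝟙 (ModuleCat.of R Y') = ModuleCat.ofHom e.symm.toLinearMap ≫
      ModuleCat.ofHom e.toLinearMap := by
    ext v
    simp
  rw [← Ext.mk₀_id_comp x, hid, ← Ext.mk₀_comp_mk₀, Ext.comp_assoc_of_second_deg_zero]
  rw [Subsingleton.elim ((Ext.mk₀ (ModuleCat.ofHom e.toLinearMap)).comp x
    (zero_add i)) 0, Ext.comp_zero]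

/-- Vanishing of Ext passes to the quotient of the target by a weakly regular sequence. -/
theorem ext_quot {Y : Type} [AddCommGroup Y] [Module R Y] (rs : List R) :
    ∀ (X : Type) [AddCommGroup X] [Module R X], IsWeaklyRegular X rs →
      (∀ i : ℕ, 0 < i → Subsingleton (Ext (ModuleCat.of R Y) (ModuleCat.of R X) i)) →
      ∀ i : ℕ, 0 < i → Subsingleton (Ext (ModuleCat.of R Y)
        (ModuleCat.of R (X ⧸ (Ideal.ofList rs • ⊤ : Submodule R X))) i) := by
  induction rs with
  | nil =>
    intro X _ _ _ h i hi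
    exact ext_congr (Submodule.quotEquivOfEqBot _
      (Eq.trans (congrArg (· • ⊤) Ideal.ofList_nil) (Submodule.bot_smul ⊤))).symm i (h i hi)
  | cons r rs ih =>
    intro X _ _ hreg h i hi
    rw [isWeaklyRegular_cons_iff] at hreg
    have h2 : ∀ i : ℕ, 0 < i → Subsingleton (Ext (ModuleCat.of R Y)
        (ModuleCat.of R (QuotSMulTop r X)) i) := by
      intro i hi
      have hS := hreg.1.smulShortComplex_shortExact (M := ModuleCat.of R X)
      refine subsingleton_of_forall_eq 0 fun x₃ => ?_
      have hs1 := h (i + 1) (by omega)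
      have hs2 := h i hi
      obtain ⟨x₂, hx₂⟩ := Ext.covariant_sequence_exact₃ (ModuleCat.of R Y) hS x₃ (n₁ := i + 1) rfl
        (Subsingleton.elim (α := Ext (ModuleCat.of R Y) (ModuleCat.of R X) (i + 1)) _ _)
      have h0 : x₂ = 0 :=
        Subsingleton.elim (α := Ext (ModuleCat.of R Y) (ModuleCat.of R X) i) _ _
      rw [← hx₂, h0, Ext.zero_comp]
      rfl
    exact ext_congr (Submodule.quotOfListConsSMulTopEquivQuotSMulTopInner X r rs).symm i
      (ih _ hreg.2 h2 i hi)

end ext

section reg

variable {R : Type} [CommRing R]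

/-- `EV` only depends on the target up to isomorphism. -/
theorem ev_congr {X X' : Type} [AddCommGroup X] [Module R X] [AddCommGroup X'] [Module R X']
    (e : X ≃ₗ[R] X') (n : ℕ) : ∀ (Y : Type) [AddCommGroup Y] [Module R Y], EV R X n Y →
    EV R X' n Y := by
  induction n with
  | zero => intro Y _ _ _; trivial
  | succ n ih =>
    intro Y _ _ h m π hπ
    obtain ⟨h1, h2⟩ := h m π hπ
    refine ⟨fun f => ?_, ih _ h2⟩
    obtain ⟨g, hg⟩ := h1 (e.symm.toLinearMap.comp f)
    refine ⟨e.toLinearMap.comp g, fun v => ?_⟩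
    rw [LinearMap.comp_apply, hg]
    simp

/-- kernel of a surjection between modules on which a sequence is weakly regular -/
theorem weaklyRegular_of_exact (rs : List R) : ∀ (K F Y : Type) [AddCommGroup K] [Module R K]
    [AddCommGroup F] [Module R F] [AddCommGroup Y] [Module R Y] (f : K →ₗ[R] F) (g : F →ₗ[R] Y),
    Function.Injective f → Function.Exact f g → Function.Surjective g → IsWeaklyRegular F rs →
    IsWeaklyRegular Y rs → IsWeaklyRegular K rs := by
  induction rs with
  | nil => intro K F Y _ _ _ _ _ _ f g _ _ _ _ _; exact IsWeaklyRegular.nil _ _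
  | cons r rs ih =>
    intro K F Y _ _ _ _ _ _ f g hf hfg hg hF hY
    rw [isWeaklyRegular_cons_iff] at hF hY ⊢
    have hK : IsSMulRegular K r := by
      intro a b hab
      apply hf
      apply hF.1
      simp only [← map_smul] at hab ⊢
      exact congrArg f hab
    refine ⟨hK, ?_⟩
    have h0 : Function.Exact (0 : K →ₗ[R] K) f := by
      intro v
      constructor
      · intro hv
        exact ⟨0, by rw [LinearMap.zero_apply]; exact (hf (hv.trans (map_zero f).symm)).symm⟩
      · rintro ⟨w, rfl⟩
        simp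
    have h1 := QuotSMulTop.map_first_exact_on_four_term_exact_of_isSMulRegular_last h0 hfg hY.1
    refine ih _ _ _ (QuotSMulTop.map r f) (QuotSMulTop.map r g) ?_
      (QuotSMulTop.map_exact r hfg hg) (QuotSMulTop.map_surjective r hg) hF.2 hY.2
    rw [injective_iff_map_eq_zero]
    intro a ha
    obtain ⟨b, hb⟩ := (h1 a).1 ha
    rw [← hb, map_zero, LinearMap.zero_apply]

theorem weaklyRegular_pi {rs : List R} (h : IsWeaklyRegular R rs) (m : ℕ) :
    IsWeaklyRegular (Fin m → R) rs :=
  ((TensorProduct.rid R (Fin m → R)).isWeaklyRegular_congr rs).1 (h.isWeaklyRegular_lTensor)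

/-- The kernel of a surjection onto a module with a weakly regular sequence meets the multiples of
the sequence in the multiples in the kernel. -/
theorem mem_smul_of_mem {F Y : Type} [AddCommGroup F] [Module R F] [AddCommGroup Y] [Module R Y]
    (g : F →ₗ[R] Y) (hg : Function.Surjective g) {rs : List R} (hY : IsWeaklyRegular Y rs)
    (w : LinearMap.ker g) (hw : (w : F) ∈ (Ideal.ofList rs • ⊤ : Submodule R F)) :
    w ∈ (Ideal.ofList rs • ⊤ : Submodule R (LinearMap.ker g)) := by
  have h0 : Function.Exact (0 : LinearMap.ker g →ₗ[R] LinearMap.ker g)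
      (LinearMap.ker g).subtype := by
    intro v
    constructor
    · intro hv
      exact ⟨0, by rw [LinearMap.zero_apply]; exact (Subtype.ext hv).symm⟩
    · rintro ⟨w, rfl⟩
      simp
  have h1 : Function.Exact (LinearMap.ker g).subtype g := by
    intro v
    constructor
    · intro hv
      exact ⟨⟨v, hv⟩, rfl⟩
    · rintro ⟨w, rfl⟩
      exact w.2
  have h2 := map_first_exact_on_four_term_right_exact_of_isSMulRegular_last h0 h1 hg hY
  have h3 := (h2 (Submodule.Quotient.mk w)).1 (by
    rw [Submodule.mapQ_apply]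
    exact (Submodule.Quotient.mk_eq_zero _).2 hw)
  obtain ⟨b, hb⟩ := h3
  obtain ⟨b, rfl⟩ := Submodule.Quotient.mk_surjective _ b
  rw [Submodule.mapQ_apply, LinearMap.zero_apply, Submodule.Quotient.mk_zero] at hb
  exact (Submodule.Quotient.mk_eq_zero _).1 hb.symm

variable {A : Type} [CommRing A] [Algebra R A]

/-- coordinatewise reduction -/
def red (R A : Type) [CommRing R] [CommRing A] [Algebra R A] (m : ℕ) :
    (Fin m → R) →ₗ[R] (Fin m → A) :=
  LinearMap.pi fun b => (Algebra.linearMap R A).comp (LinearMap.proj b)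

theorem red_apply (m : ℕ) (v : Fin m → R) (b : Fin m) : red R A m v b = algebraMap R A (v b) := rfl

theorem red_surjective (hsurj : Function.Surjective (algebraMap R A)) (m : ℕ) :
    Function.Surjective (red R A m) := by
  intro v
  choose w hw using fun b => hsurj (v b)
  exact ⟨w, funext hw⟩

theorem mem_smul_top_pi (I : Ideal R) (m : ℕ) (v : Fin m → R) (hv : ∀ b, v b ∈ I) :
    v ∈ (I • ⊤ : Submodule R (Fin m → R)) := by
  have h1 : v = ∑ b, v b • (Pi.single b (1 : R) : Fin m → R) := by
    ext j
    simp [Finset.sum_apply, Pi.single_apply]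
  rw [h1]
  exact Submodule.sum_mem _ fun b _ => Submodule.smul_mem_smul (hv b) trivial

/-- Lifting a finite free cover of the reduction. -/
theorem lift_cover (hsurj : Function.Surjective (algebraMap R A)) {rs : List R}
    (hker : RingHom.ker (algebraMap R A) = Ideal.ofList rs) [IsLocalRing R]
    (hm : ∀ r ∈ rs, r ∈ IsLocalRing.maximalIdeal R) (hR : IsWeaklyRegular R rs)
    (Y : Type) [AddCommGroup Y] [Module R Y] [Module.Finite R Y] (hY : IsWeaklyRegular Y rs)
    (Z : Type) [AddCommGroup Z] [Module R Z] [Module A Z] [IsScalarTower R A Z]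
    (ρ : Y →ₗ[R] Z) (hρ : Function.Surjective ρ)
    (hkρ : LinearMap.ker ρ = (Ideal.ofList rs • ⊤ : Submodule R Y)) (m : ℕ)
    (π' : (Fin m → A) →ₗ[A] Z) (hπ' : Function.Surjective π') :
    ∃ π : (Fin m → R) →ₗ[R] Y, Function.Surjective π ∧ IsWeaklyRegular (LinearMap.ker π) rs ∧
      ∃ ρK : LinearMap.ker π →ₗ[R] LinearMap.ker π', Function.Surjective ρK ∧
        LinearMap.ker ρK = (Ideal.ofList rs • ⊤ : Submodule R (LinearMap.ker π)) ∧
        ∀ w : LinearMap.ker π, (ρK w : Fin m → A) = red R A m (w : Fin m → R) := by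
  have hIm : Ideal.ofList rs ≤ IsLocalRing.maximalIdeal R := by
    rw [Ideal.ofList, Ideal.span_le]
    intro r hr
    exact hm r hr
  have hzero : ∀ r ∈ Ideal.ofList rs, algebraMap R A r = 0 := by
    intro r hr
    rw [← hker] at hr
    exact hr
  choose y hy using fun b => hρ (π' (Pi.single b 1))
  let π : (Fin m → R) →ₗ[R] Y := lc y
  have hcomp : ∀ v, ρ (π v) = π' (red R A m v) := by
    intro v
    change ρ (lc y v) = _
    rw [lc_apply, map_sum]
    have h1 : red R A m v = ∑ b, (algebraMap R A (v b)) • (Pi.single b (1 : A) : Fin m → A) := by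
      ext j
      simp [Finset.sum_apply, Pi.single_apply, red_apply]
      exact Algebra.algebraMap_eq_smul_one _
    rw [h1, map_sum]
    refine Finset.sum_congr rfl fun b _ => ?_
    rw [map_smul, hy, map_smul, algebraMap_smul]
  have hπ : Function.Surjective π := by
    rw [← LinearMap.range_eq_top, ← top_le_iff]
    refine Submodule.le_of_le_smul_of_le_jacobson_bot (I := Ideal.ofList rs)
      Module.Finite.fg_top ?_ ?_
    · rw [IsLocalRing.jacobson_eq_maximalIdeal _ bot_ne_top]
      exact hIm
    · intro u _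
      obtain ⟨v, hv⟩ := hπ' (ρ u)
      obtain ⟨w, rfl⟩ := red_surjective hsurj m v
      have h2 : u - π w ∈ LinearMap.ker ρ := by
        rw [LinearMap.mem_ker, map_sub, hcomp, hv, sub_self]
      rw [hkρ] at h2
      have h3 : u = π w + (u - π w) := by abel
      rw [h3]
      exact Submodule.add_mem_sup ⟨w, rfl⟩ h2
  have hKreg : IsWeaklyRegular (LinearMap.ker π) rs := by
    refine weaklyRegular_of_exact rs _ _ _ (LinearMap.ker π).subtype π
      Subtype.val_injective ?_ hπ (weaklyRegular_pi hR m) hY
    intro v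
    constructor
    · intro hv
      exact ⟨⟨v, hv⟩, rfl⟩
    · rintro ⟨w, rfl⟩
      exact w.2
  -- the reduction on kernels
  let ρK : LinearMap.ker π →ₗ[R] LinearMap.ker π' :=
    { toFun := fun w => ⟨red R A m (w : Fin m → R), by
        rw [LinearMap.mem_ker, ← hcomp, LinearMap.mem_ker.1 w.2, map_zero]⟩
      map_add' := fun a b => by ext1; simp
      map_smul' := fun c a => by ext1; simp }
  refine ⟨π, hπ, hKreg, ρK, ?_, ?_, fun w => rfl⟩
  · rintro ⟨v, hv⟩
    obtain ⟨w, rfl⟩ := red_surjective hsurj m v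
    have h1 : π w ∈ (Ideal.ofList rs • ⊤ : Submodule R Y) := by
      rw [← hkρ, LinearMap.mem_ker, hcomp]
      exact hv
    have h2 : (Ideal.ofList rs • ⊤ : Submodule R Y) =
        (Ideal.ofList rs • ⊤ : Submodule R (Fin m → R)).map π := by
      rw [Submodule.map_smul'', Submodule.map_top, LinearMap.range_eq_top.2 hπ]
    rw [h2] at h1
    obtain ⟨u, hu, hu2⟩ := h1
    refine ⟨⟨w - u, by rw [LinearMap.mem_ker, map_sub, hu2, sub_self]⟩, ?_⟩
    ext1
    change red R A m (w - u) = red R A m w
    have h3 : red R A m u = 0 := by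
      refine Submodule.smul_induction_on (p := fun u => red R A m u = 0) hu ?_ ?_
      · intro r hr v _
        rw [map_smul]
        ext b
        rw [Pi.smul_apply, Algebra.smul_def, hzero r hr, zero_mul]
        rfl
      · intro a b ha hb
        rw [map_add, ha, hb, add_zero]
    rw [map_sub, h3, sub_zero]
  · apply le_antisymm
    · intro w hw
      refine mem_smul_of_mem π hπ hY w ?_
      apply mem_smul_top_pi
      intro b
      rw [← hker, RingHom.mem_ker]
      have h1 : red R A m (w : Fin m → R) = 0 :=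
        congrArg (fun t : LinearMap.ker π' => (t : Fin m → A)) (LinearMap.mem_ker.1 hw)
      exact congrFun h1 b
    · rw [Submodule.smul_le]
      intro r hr w _
      rw [LinearMap.mem_ker, map_smul]
      ext1
      ext b
      change (r • (red R A m (w : Fin m → R))) b = 0
      rw [Pi.smul_apply, Algebra.smul_def, hzero r hr, zero_mul]

/-- Descent of the vanishing along the reduction modulo a regular sequence. -/
theorem ev_descent (hsurj : Function.Surjective (algebraMap R A)) {rs : List R}
    (hker : RingHom.ker (algebraMap R A) = Ideal.ofList rs) [IsLocalRing R] [IsNoetherianRing R]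
    (hm : ∀ r ∈ rs, r ∈ IsLocalRing.maximalIdeal R) (hR : IsWeaklyRegular R rs)
    {X : Type} [AddCommGroup X] [Module R X] [Module A X] [IsScalarTower R A X] (n : ℕ) :
    ∀ (Y : Type) [AddCommGroup Y] [Module R Y] [Module.Finite R Y], IsWeaklyRegular Y rs →
    ∀ (Z : Type) [AddCommGroup Z] [Module R Z] [Module A Z] [IsScalarTower R A Z]
      (ρ : Y →ₗ[R] Z), Function.Surjective ρ →
      LinearMap.ker ρ = (Ideal.ofList rs • ⊤ : Submodule R Y) → EV R X n Y → EV A X n Z := by
  induction n with
  | zero => intro Y _ _ _ _ Z _ _ _ _ _ _ _ _; trivial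
  | succ n ih =>
    intro Y _ _ _ hY Z _ _ _ _ ρ hρ hkρ hev m π' hπ'
    obtain ⟨π, hπ, hKreg, ρK, hρK, hkK, hval⟩ :=
      lift_cover hsurj hker hm hR Y hY Z ρ hρ hkρ m π' hπ'
    obtain ⟨hext, hev'⟩ := hev m π hπ
    refine ⟨fun f => ?_, ih _ hKreg _ ρK hρK hkK hev'⟩
    obtain ⟨g, hg⟩ := hext ((f.restrictScalars R).comp ρK)
    refine ⟨lc fun b => g (Pi.single b 1), fun v => ?_⟩
    obtain ⟨w, rfl⟩ := hρK v
    have h1 := hg w
    rw [LinearMap.comp_apply, LinearMap.restrictScalars_apply] at h1
    rw [← h1, lc_apply]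
    have h2 : (w : Fin m → R) = ∑ b, (w : Fin m → R) b • (Pi.single b (1 : R) : Fin m → R) := by
      ext j
      simp [Finset.sum_apply, Pi.single_apply]
    conv_rhs => rw [h2, map_sum]
    refine Finset.sum_congr rfl fun b _ => ?_
    rw [map_smul, hval, red_apply, algebraMap_smul]

end reg

end Pool.Agent.Helper35.AR
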