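import Pool.Agent.Helper35.AR.RegSeq

set_option autoImplicit false
set_option linter.unusedSectionVars false

open CategoryTheory Abelian RingTheory.Sequence Module

namespace Pool.Agent.Helper35.AR

section spread

variable {k A : Type} [Field k] [CommRing A] [Algebra k A] {gA : Gd k A}
variable {X : Type} [AddCommGroup X] [Module k X] [Module A X] [IsScalarTower k A X]

/-- The identity behind the spread theorem. -/
theorem spread_identity (hA : RingGd gA) {gX : Gd k X} (hX : Compat gA gX) [Module.Finite k A]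
    [Module.Finite k X] (hev : ∀ n, EV A X n X) (D : ℤ) :
    ∑ j ∈ gA.S, (finrank k (HomQ A gX gX (j - D)) : ℤ) * finrank k (gA.pc j) =
    ∑ e ∈ gX.S, (finrank k (gX.pc (e + D)) : ℤ) * finrank k (gX.pc e) := by
  obtain ⟨L, hL⟩ : ∃ L : ℤ, ∀ i, L - D ≤ i → gX.pc i = ⊥ := by
    obtain ⟨B, hB⟩ := gX.S.bddAbove
    refine ⟨B + D + 1, fun i hi => gX.supp fun h => ?_⟩
    have := hB h
    omega
  obtain ⟨n, hn⟩ : ∃ n : ℕ, ∀ j < L - n, gX.pc j = ⊥ := by
    obtain ⟨B, hB⟩ := gX.S.bddBelow
    refine ⟨(L - B).toNat, fun j hj => gX.supp fun h => ?_⟩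
    have := hB h
    omega
  have := theta_eq_zero hA hX hL n X gX hX hn (hev n)
  rw [theta, sub_eq_zero] at this
  exact this

/-- A nonzero graded module without self extensions is spread over the degrees of the ring. -/
theorem spread (hA : RingGd gA) {gX : Gd k X} (hX : Compat gA gX) [Module.Finite k A]
    [Module.Finite k X] [Nontrivial X] (hev : ∀ n, EV A X n X) (D : ℤ) (hD : gA.pc D ≠ ⊥) :
    ∃ e, gX.pc e ≠ ⊥ ∧ gX.pc (e + D) ≠ ⊥ := by
  have h1 := spread_identity hA hX hev D
  have hDS : D ∈ gA.S := by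
    by_contra h
    exact hD (gA.supp h)
  have hfin : Module.Finite k (X →ₗ[A] X) := finite_hom
  have h2 : 0 < ∑ j ∈ gA.S, (finrank k (HomQ A gX gX (j - D)) : ℤ) * finrank k (gA.pc j) := by
    refine Finset.sum_pos' (fun j _ => by positivity) ⟨D, hDS, ?_⟩
    have h3 : 0 < finrank k (gA.pc D) := by
      have : Nontrivial (gA.pc D) := Submodule.nontrivial_iff_ne_bot.2 hD
      exact finrank_pos
    have h4 : 0 < finrank k (HomQ A gX gX (D - D)) := by
      have : Nontrivial (HomQ A gX gX (D - D)) := by
        rw [Submodule.nontrivial_iff_ne_bot, Submodule.ne_bot_iff]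
        refine ⟨LinearMap.id, fun j y hy => ?_, ?_⟩
        · rw [sub_self, add_zero]
          exact hy
        · intro h
          obtain ⟨x, hx⟩ := exists_ne (0 : X)
          exact hx (LinearMap.congr_fun h x)
      exact finrank_pos
    positivity
  rw [h1] at h2
  obtain ⟨e, _, he⟩ : ∃ e ∈ gX.S,
      (finrank k (gX.pc (e + D)) : ℤ) * finrank k (gX.pc e) ≠ 0 := by
    by_contra h
    push Not at h
    rw [Finset.sum_eq_zero h] at h2
    exact lt_irrefl _ h2
  refine ⟨e, fun h => he ?_, fun h => he ?_⟩
  · rw [h, finrank_bot]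
    simp
  · rw [h, finrank_bot]
    simp

/-- grading data from a decomposition -/
noncomputable def gdOf (𝒳 : ℤ → Submodule k X) [DirectSum.Decomposition 𝒳] [Module.Finite k X] :
    Gd k X where
  pc := 𝒳
  P := fun j => (𝒳 j).subtype ∘ₗ (DirectSum.component k ℤ (fun i => 𝒳 i) j) ∘ₗ
    (DirectSum.decomposeLinearEquiv 𝒳).toLinearMap
  S := (Submodule.finite_ne_bot_of_iSupIndep
    (DirectSum.Decomposition.isInternal 𝒳).submodule_iSupIndep).toFinset
  mem := fun j y => by
    change ((DirectSum.decompose 𝒳 y) j : X) ∈ 𝒳 j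
    exact Subtype.mem _
  fix := fun j y hy => by
    change ((DirectSum.decompose 𝒳 y) j : X) = y
    exact DirectSum.decompose_of_mem_same 𝒳 hy
  ne := fun i j y hij hy => by
    change ((DirectSum.decompose 𝒳 y) i : X) = 0
    exact DirectSum.decompose_of_mem_ne 𝒳 hy hij.symm
  sum := fun y => by
    classical
    change ∑ j ∈ _, ((DirectSum.decompose 𝒳 y) j : X) = y
    conv_rhs => rw [← DirectSum.sum_support_decompose 𝒳 y]
    refine (Finset.sum_subset ?_ ?_).symm
    · intro j hj
      rw [Set.Finite.mem_toFinset]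
      intro h
      rw [DFinsupp.mem_support_iff] at hj
      apply hj
      have h1 : ((DirectSum.decompose 𝒳 y) j : X) ∈ 𝒳 j := Subtype.mem _
      exact Subtype.ext ((Submodule.eq_bot_iff _).1 h _ h1)
    · intro j _ hj
      rw [DFinsupp.mem_support_iff, not_not] at hj
      rw [hj]
      rfl

end spread

section syz

variable {R : Type} [CommRing R]

/-- `IsSyz R N n M`: the module `N` is an `n`-th syzygy of `M`. -/
def IsSyz (R : Type) [CommRing R] (N : Type) [AddCommGroup N] [Module R N] :
    ℕ → (M : Type) → [AddCommGroup M] → [Module R M] → Prop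
  | 0, M, _, _ => Nonempty (M ≃ₗ[R] N)
  | n + 1, M, _, _ => ∃ (m : ℕ) (π : (Fin m → R) →ₗ[R] M), Function.Surjective π ∧
      IsSyz R N n (LinearMap.ker π)

theorem finite_of_isSyz [IsNoetherianRing R] {N : Type} [AddCommGroup N] [Module R N] (n : ℕ) :
    ∀ (M : Type) [AddCommGroup M] [Module R M] [Module.Finite R M], IsSyz R N n M →
      Module.Finite R N := by
  induction n with
  | zero =>
    intro M _ _ _ h
    obtain ⟨e⟩ := h
    exact Module.Finite.equiv e
  | succ n ih =>
    intro M _ _ _ h
    obtain ⟨m, π, _, h2⟩ := h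
    exact ih _ h2

theorem ext_of_isSyz [HasExt.{0} (ModuleCat.{0} R)] {N : Type} [AddCommGroup N] [Module R N]
    (n : ℕ) : ∀ (M : Type) [AddCommGroup M] [Module R M], IsSyz R N n M →
    (∀ i : ℕ, 0 < i → Subsingleton (Ext (ModuleCat.of R M) (ModuleCat.of R R) i)) →
    (∀ i : ℕ, 0 < i → Subsingleton (Ext (ModuleCat.of R M) (ModuleCat.of R M) i)) →
    (∀ i : ℕ, 0 < i → Subsingleton (Ext (ModuleCat.of R N) (ModuleCat.of R R) i)) ∧
    (∀ i : ℕ, 0 < i → Subsingleton (Ext (ModuleCat.of R N) (ModuleCat.of R N) i)) := by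
  induction n with
  | zero =>
    intro M _ _ h h1 h2
    obtain ⟨e⟩ := h
    exact ⟨fun i hi => ext_congr_left e i (h1 i hi),
      fun i hi => ext_congr e i (ext_congr_left e i (h2 i hi))⟩
  | succ n ih =>
    intro M _ _ h h1 h2
    obtain ⟨m, π, hπ, h3⟩ := h
    refine ih _ h3 (fun i hi => ?_) (fun i hi => ext_syz h1 h2 m π hπ i hi)
    obtain ⟨j, rfl⟩ : ∃ j, i = j + 1 := ⟨i - 1, by omega⟩
    exact ext_ker π hπ j (h1 (j + 2) (by omega))

/-- If some syzygy is projective and all Ext groups to the ring vanish, the module is projective. -/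
theorem projective_of_isSyz [IsNoetherianRing R] [HasExt.{0} (ModuleCat.{0} R)] {N : Type}
    [AddCommGroup N] [Module R N] (hN : Module.Projective R N) (n : ℕ) :
    ∀ (M : Type) [AddCommGroup M] [Module R M] [Module.Finite R M], IsSyz R N n M →
    (∀ i : ℕ, 0 < i → Subsingleton (Ext (ModuleCat.of R M) (ModuleCat.of R R) i)) →
    Module.Projective R M := by
  induction n with
  | zero =>
    intro M _ _ _ h _
    obtain ⟨e⟩ := h
    exact Module.Projective.of_equiv e.symm
  | succ n ih =>
    intro M _ _ _ h h1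
    obtain ⟨m, π, hπ, h3⟩ := h
    have hK : Module.Projective R (LinearMap.ker π) := by
      refine ih _ h3 (fun i hi => ?_)
      obtain ⟨j, rfl⟩ : ∃ j, i = j + 1 := ⟨i - 1, by omega⟩
      exact ext_ker π hπ j (h1 (j + 2) (by omega))
    -- the kernel is a direct summand of a finite free module
    obtain ⟨t, p, hp⟩ := Module.Finite.exists_fin' R (LinearMap.ker π)
    obtain ⟨s, hs⟩ := Module.projective_lifting_property p LinearMap.id hp
    have hMF : Subsingleton (Ext (ModuleCat.of R M) (ModuleCat.of R (Fin t → R)) 1) :=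
      ext_fun_free M t 1 (h1 1 one_pos)
    obtain ⟨g, hg⟩ := extend_of_ext_one π hπ hMF s
    -- so the inclusion of the kernel splits
    have hspl : ∀ v : LinearMap.ker π, p (g v) = v := by
      intro v
      rw [hg v]
      exact LinearMap.congr_fun hs v
    -- hence the surjection splits
    obtain ⟨σ, hσ⟩ : ∃ σ : M →ₗ[R] (Fin m → R), π.comp σ = LinearMap.id := by
      let q : (Fin m → R) →ₗ[R] (Fin m → R) :=
        LinearMap.id - (LinearMap.ker π).subtype.comp (p.comp g)
      have hq : LinearMap.ker π ≤ LinearMap.ker q := by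
        intro v hv
        have := hspl ⟨v, hv⟩
        have h5 : ((p (g v) : LinearMap.ker π) : Fin m → R) = v := by
          have h6 := congrArg (fun t : LinearMap.ker π => (t : Fin m → R)) this
          exact h6
        rw [LinearMap.mem_ker]
        change v - ((p (g v) : LinearMap.ker π) : Fin m → R) = 0
        rw [h5, sub_self]
      let e := π.quotKerEquivOfSurjective hπ
      refine ⟨((LinearMap.ker π).liftQ q hq).comp e.symm.toLinearMap, ?_⟩
      apply LinearMap.ext
      intro y
      obtain ⟨v, rfl⟩ := hπ y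
      have h7 : e.symm (π v) = Submodule.Quotient.mk v := by
        rw [LinearEquiv.symm_apply_eq]
        rfl
      rw [LinearMap.comp_apply, LinearMap.comp_apply, LinearEquiv.coe_coe, h7]
      change π (((LinearMap.ker π).liftQ q hq) (Submodule.Quotient.mk v)) = π v
      rw [Submodule.liftQ_apply]
      change π (v - ((p (g v) : LinearMap.ker π) : Fin m → R)) = π v
      rw [map_sub, LinearMap.mem_ker.1 (p (g v)).2, sub_zero]
    exact Module.Projective.of_split σ π hσ

end syz

end Pool.Agent.Helper35.AR
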