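import Pool.Agent.Helper35.AR.Gr

set_option autoImplicit false
set_option linter.unusedSectionVars false

namespace Pool.Agent.Helper35.AR

open Module

section ring

variable {k R : Type} [Field k] [CommRing R] [Algebra k R]

/-- the conditions on the grading data of a ring: positively graded with degree zero part `k` -/
structure RingGd (gR : Gd k R) : Prop where
  one : (1 : R) ∈ gR.pc 0
  mul : ∀ i j r s, r ∈ gR.pc i → s ∈ gR.pc j → r * s ∈ gR.pc (i + j)
  neg : ∀ j < 0, gR.pc j = ⊥
  zero : ∀ r ∈ gR.pc 0, ∃ c : k, algebraMap k R c = r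

variable {gR : Gd k R}
variable {X : Type} [AddCommGroup X] [Module k X] [Module R X] [IsScalarTower k R X]

theorem sum_subset {Y : Type} [AddCommGroup Y] [Module k Y] (g : Gd k Y) (T : Finset ℤ)
    (hT : g.S ⊆ T) (y : Y) : ∑ j ∈ T, g.P j y = y := by
  conv_rhs => rw [← g.sum y]
  refine (Finset.sum_subset hT fun j _ hj => g.P_eq_zero (g.supp hj) y).symm

/-- grading data on a free module with basis elements placed in degrees `c` -/
def freeGd (gR : Gd k R) {m : ℕ} (c : Fin m → ℤ) : Gd k (Fin m → R) where
  pc := fun j =>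
    { carrier := {v | ∀ b, v b ∈ gR.pc (j - c b)}
      add_mem' := fun hv hw b => add_mem (hv b) (hw b)
      zero_mem' := fun b => zero_mem _
      smul_mem' := fun a v hv b => Submodule.smul_mem _ a (hv b) }
  P := fun j =>
    { toFun := fun v b => gR.P (j - c b) (v b)
      map_add' := fun v w => by ext b; simp
      map_smul' := fun a v => by ext b; simp }
  S := Finset.univ.biUnion fun b => gR.S.image (· + c b)
  mem := fun j v b => gR.mem _ _
  fix := fun j v hv => by
    ext b
    exact gR.fix _ _ (hv b)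
  ne := fun i j v hij hv => by
    ext b
    exact gR.ne _ _ _ (by omega) (hv b)
  sum := fun v => by
    ext b
    have h1 : (∑ j ∈ Finset.univ.biUnion fun b => gR.S.image (· + c b),
        (fun b => gR.P (j - c b) (v b) : Fin m → R)) b =
        ∑ j ∈ (Finset.univ.biUnion fun b => gR.S.image (· + c b)).image (· - c b),
          gR.P j (v b) := by
      rw [Finset.sum_apply, Finset.sum_image]
      intro x _ y _ hxy
      simpa using hxy
    refine h1.trans (sum_subset gR _ ?_ (v b))
    intro i hi
    rw [Finset.mem_image]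
    exact ⟨i + c b, Finset.mem_biUnion.2 ⟨b, Finset.mem_univ _, Finset.mem_image_of_mem _ hi⟩,
      by simp⟩

theorem mem_freeGd {m : ℕ} (c : Fin m → ℤ) (j : ℤ) (v : Fin m → R) :
    v ∈ (freeGd gR c).pc j ↔ ∀ b, v b ∈ gR.pc (j - c b) := Iff.rfl

theorem freeGd_compat (hR : RingGd gR) {m : ℕ} (c : Fin m → ℤ) :
    Compat gR (freeGd gR c) := by
  intro i j r v hr hv b
  have := hR.mul i (j - c b) r (v b) hr (hv b)
  rw [← add_sub_assoc] at this
  exact this

/-- the linear map with prescribed values on the standard basis -/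
def lc {m : ℕ} (x : Fin m → X) : (Fin m → R) →ₗ[R] X :=
  ∑ b, (LinearMap.proj b : (Fin m → R) →ₗ[R] R).smulRight (x b)

theorem lc_apply {m : ℕ} (x : Fin m → X) (v : Fin m → R) : lc x v = ∑ b, v b • x b := by
  simp [lc]


theorem finrank_freeGd [Module.Finite k R] {m : ℕ} (c : Fin m → ℤ) (j : ℤ) :
    finrank k ((freeGd gR c).pc j) = ∑ b, finrank k (gR.pc (j - c b)) := by
  let e : ((freeGd gR c).pc j) ≃ₗ[k] (∀ b, gR.pc (j - c b)) :=
    { toFun := fun v b => ⟨v.1 b, v.2 b⟩
      invFun := fun v => ⟨fun b => (v b).1, fun b => (v b).2⟩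
      left_inv := fun v => rfl
      right_inv := fun v => rfl
      map_add' := fun v w => rfl
      map_smul' := fun a v => rfl }
  rw [e.finrank_eq, Module.finrank_pi_fintype]

theorem single_mem (hR : RingGd gR) {m : ℕ} (c : Fin m → ℤ) (b : Fin m) :
    (fun j => if b = j then (1 : R) else 0) ∈ (freeGd gR c).pc (c b) := by
  intro j
  change (if b = j then (1 : R) else 0) ∈ gR.pc (c b - c j)
  split_ifs with h
  · subst h
    rw [sub_self]
    exact hR.one
  · exact zero_mem _

theorem finrank_HomQ_free (hR : RingGd gR) {gX : Gd k X} (hX : Compat gR gX) [Module.Finite k X]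
    {m : ℕ} (c : Fin m → ℤ) (q : ℤ) :
    finrank k (HomQ R (freeGd gR c) gX q) = ∑ b, finrank k (gX.pc (c b + q)) := by
  let e : (HomQ R (freeGd gR c) gX q) ≃ₗ[k] (∀ b, gX.pc (c b + q)) :=
    { toFun := fun f b => ⟨f.1 (fun j => if b = j then (1 : R) else 0),
        f.2 _ _ (single_mem hR c b)⟩
      invFun := fun x => ⟨lc (fun b => (x b).1), fun j v hv => by
        rw [lc_apply]
        refine Submodule.sum_mem _ fun b _ => ?_
        have := hX (j - c b) (c b + q) (v b) (x b).1 (hv b) (x b).2
        have h2 : j - c b + (c b + q) = j + q := by ring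
        rw [h2] at this
        exact this⟩
      left_inv := fun f => by
        ext1
        apply LinearMap.ext
        intro v
        rw [lc_apply]
        exact (LinearMap.pi_apply_eq_sum_univ f.1 v).symm
      right_inv := fun x => by
        ext b
        change lc (fun b => (x b).1) (fun j => if b = j then (1 : R) else 0) = (x b).1
        rw [lc_apply]
        simp
      map_add' := fun v w => rfl
      map_smul' := fun a v => rfl }
  rw [e.finrank_eq, Module.finrank_pi_fintype]

/-- The defect of the Hilbert series identity in degree `-D`. -/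
noncomputable def theta (gR : Gd k R) (gX : Gd k X) (D : ℤ) {Y : Type} [AddCommGroup Y]
    [Module k Y] [Module R Y] [IsScalarTower k R Y] (gY : Gd k Y) : ℤ :=
  ∑ j ∈ gR.S, (finrank k (HomQ R gY gX (j - D)) : ℤ) * finrank k (gR.pc j) -
    ∑ e ∈ gX.S, (finrank k (gY.pc (e + D)) : ℤ) * finrank k (gX.pc e)

theorem theta_aux (gX : Gd k X) (D c : ℤ) :
    ∑ j ∈ gR.S, (finrank k (gX.pc (c + (j - D))) : ℤ) * finrank k (gR.pc j) =
    ∑ e ∈ gX.S, (finrank k (gR.pc (e + D - c)) : ℤ) * finrank k (gX.pc e) := by
  have h1 : ∑ᶠ j, (finrank k (gX.pc (c + (j - D))) : ℤ) * finrank k (gR.pc j) =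
      ∑ j ∈ gR.S, (finrank k (gX.pc (c + (j - D))) : ℤ) * finrank k (gR.pc j) := by
    apply finsum_eq_sum_of_support_subset
    intro j hj
    by_contra h
    apply hj
    simp only
    rw [gR.supp h, finrank_bot]
    simp
  have h2 : ∑ᶠ e, (finrank k (gR.pc (e + D - c)) : ℤ) * finrank k (gX.pc e) =
      ∑ e ∈ gX.S, (finrank k (gR.pc (e + D - c)) : ℤ) * finrank k (gX.pc e) := by
    apply finsum_eq_sum_of_support_subset
    intro j hj
    by_contra h
    apply hj
    simp only
    rw [gX.supp h, finrank_bot]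
    simp
  rw [← h1, ← h2, ← finsum_comp_equiv (Equiv.addRight (D - c))]
  apply finsum_congr
  intro j
  have k1 : ∀ i l : ℤ, i = l → finrank k (gR.pc i) = finrank k (gR.pc l) := by
    rintro i _ rfl
    rfl
  have k2 : ∀ i l : ℤ, i = l → finrank k (gX.pc i) = finrank k (gX.pc l) := by
    rintro i _ rfl
    rfl
  have e1 : (Equiv.addRight (D - c)) j = j + (D - c) := rfl
  rw [k2 (c + ((Equiv.addRight (D - c)) j - D)) j (by rw [e1]; ring),
    k1 ((Equiv.addRight (D - c)) j) (j + D - c) (by rw [e1]; ring), mul_comm]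

theorem theta_free (hR : RingGd gR) {gX : Gd k X} (hX : Compat gR gX) [Module.Finite k R]
    [Module.Finite k X] (D : ℤ) {m : ℕ} (c : Fin m → ℤ) :
    theta gR gX D (freeGd gR c) = 0 := by
  rw [theta, sub_eq_zero]
  have h1 : ∀ j, (finrank k (HomQ R (freeGd gR c) gX (j - D)) : ℤ) * finrank k (gR.pc j) =
      ∑ b, (finrank k (gX.pc (c b + (j - D))) : ℤ) * finrank k (gR.pc j) := by
    intro j
    rw [finrank_HomQ_free hR hX, Nat.cast_sum, Finset.sum_mul]
  have h2 : ∀ e, (finrank k ((freeGd gR c).pc (e + D)) : ℤ) * finrank k (gX.pc e) =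
      ∑ b, (finrank k (gR.pc (e + D - c b)) : ℤ) * finrank k (gX.pc e) := by
    intro e
    rw [finrank_freeGd, Nat.cast_sum, Finset.sum_mul]
  rw [Finset.sum_congr rfl fun j _ => h1 j, Finset.sum_congr rfl fun e _ => h2 e,
    Finset.sum_comm, Finset.sum_comm (s := gX.S)]
  exact Finset.sum_congr rfl fun b _ => theta_aux gX D (c b)

theorem theta_add {F Y : Type} [AddCommGroup F] [Module k F] [Module R F] [IsScalarTower k R F]
    [AddCommGroup Y] [Module k Y] [Module R Y] [IsScalarTower k R Y]
    {gF : Gd k F} {gY : Gd k Y} {gX : Gd k X} (hF : Compat gR gF)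
    (hX : Compat gR gX) (π : F →ₗ[R] Y) (hπ : Function.Surjective π)
    (hd : ∀ j v, v ∈ gF.pc j → π v ∈ gY.pc j) [Module.Finite k F] [Module.Finite k X]
    (hext : ∀ f : LinearMap.ker π →ₗ[R] X, ∃ g : F →ₗ[R] X, ∀ v : LinearMap.ker π, g v = f v)
    (D : ℤ) :
    theta gR gX D gY + theta gR gX D (kerGd π hd) = theta gR gX D gF := by
  have h1 : ∀ j, (finrank k (HomQ R gF gX (j - D)) : ℤ) = finrank k (HomQ R gY gX (j - D)) +
      finrank k (HomQ R (kerGd π hd) gX (j - D)) := by
    intro j
    rw [← finrank_HomQ_add hF hX π hπ hd hext, Nat.cast_add]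
  have h2 : ∀ e, (finrank k (gF.pc (e + D)) : ℤ) = finrank k (gY.pc (e + D)) +
      finrank k ((kerGd π hd).pc (e + D)) := by
    intro e
    rw [← finrank_pc_add π hπ hd, Nat.cast_add]
    ring
  simp only [theta, h1, h2, add_mul, Finset.sum_add_distrib]
  ring

/-- If all pieces of `Y` of degree less than `L` vanish and `L` is large then the defect is zero. -/
theorem theta_high (hR : RingGd gR) {Y : Type} [AddCommGroup Y] [Module k Y] [Module R Y]
    [IsScalarTower k R Y] {gY : Gd k Y} {gX : Gd k X} {D L : ℤ}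
    (hL : ∀ i, L - D ≤ i → gX.pc i = ⊥) (hY : ∀ j < L, gY.pc j = ⊥) :
    theta gR gX D gY = 0 := by
  have h1 : ∀ j ∈ gR.S, (finrank k (HomQ R gY gX (j - D)) : ℤ) * finrank k (gR.pc j) = 0 := by
    intro j _
    by_cases hj : j < 0
    · rw [hR.neg j hj, finrank_bot]
      simp
    · have : HomQ R gY gX (j - D) = ⊥ := by
        rw [Submodule.eq_bot_iff]
        intro f hf
        apply LinearMap.ext
        intro y
        rw [LinearMap.zero_apply, ← gY.sum y, map_sum]
        refine Finset.sum_eq_zero fun l _ => ?_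
        by_cases hl : l < L
        · rw [gY.P_eq_zero (hY l hl), map_zero]
        · have h3 := hf l _ (gY.mem l y)
          rw [hL _ (by omega), Submodule.mem_bot] at h3
          exact h3
      rw [this, finrank_bot]
      simp
  have h2 : ∀ e ∈ gX.S, (finrank k (gY.pc (e + D)) : ℤ) * finrank k (gX.pc e) = 0 := by
    intro e _
    by_cases he : e + D < L
    · rw [hY _ he, finrank_bot]
      simp
    · rw [hL e (by omega), finrank_bot]
      simp
  rw [theta, Finset.sum_eq_zero h1, Finset.sum_eq_zero h2, sub_zero]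

/-- The Hilbert series identity, by induction along syzygies. -/
theorem theta_eq_zero (hR : RingGd gR) {gX : Gd k X} (hX : Compat gR gX) [Module.Finite k R]
    [Module.Finite k X] {D L : ℤ} (hL : ∀ i, L - D ≤ i → gX.pc i = ⊥) (n : ℕ) :
    ∀ (Y : Type) [AddCommGroup Y] [Module k Y] [Module R Y] [IsScalarTower k R Y]
      [Module.Finite k Y] (gY : Gd k Y), Compat gR gY → (∀ j < L - n, gY.pc j = ⊥) →
      EV R X n Y → theta gR gX D gY = 0 := by
  induction n with
  | zero =>
    intro Y _ _ _ _ _ gY _ hlow _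
    exact theta_high hR hL (by simpa using hlow)
  | succ n ih =>
    intro Y _ _ _ _ _ gY hY hlow hev
    obtain ⟨m, b, c, hb, hli, hspan⟩ := gY.exists_basis
    let π : (Fin m → R) →ₗ[R] Y := lc b
    have hπ : Function.Surjective π := by
      intro y
      obtain ⟨v, hv⟩ := hspan y
      refine ⟨fun i => algebraMap k R (v i), ?_⟩
      rw [lc_apply, ← hv]
      exact Finset.sum_congr rfl fun i _ => algebraMap_smul R (v i) (b i)
    have hd : ∀ j v, v ∈ (freeGd gR c).pc j → π v ∈ gY.pc j := by
      intro j v hv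
      change lc b v ∈ gY.pc j
      rw [lc_apply]
      refine Submodule.sum_mem _ fun i _ => ?_
      have := hY (j - c i) (c i) (v i) (b i) (hv i) (hb i)
      rwa [sub_add_cancel] at this
    obtain ⟨hext, hev'⟩ := hev m π hπ
    have hbne : ∀ i, b i ≠ 0 := fun i => hli.ne_zero i
    have hcl : ∀ i, L - (n + 1 : ℕ) ≤ c i := by
      intro i
      by_contra h
      have h1 := hb i
      rw [hlow _ (not_le.1 h), Submodule.mem_bot] at h1
      exact hbne i h1
    have hlow' : ∀ j < L - n, (kerGd (gY := gY) π hd).pc j = ⊥ := by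
      intro j hj
      rw [Submodule.eq_bot_iff]
      rintro ⟨v, hv⟩ hvj
      have hvj' : ∀ i, v i ∈ gR.pc (j - c i) := hvj
      have hval : ∀ i, ∃ a : k, algebraMap k R a = v i := by
        intro i
        have h1 := hvj' i
        have h2 := hcl i
        push_cast at h2
        by_cases h3 : j - c i < 0
        · rw [hR.neg _ h3, Submodule.mem_bot] at h1
          exact ⟨0, by rw [h1, map_zero]⟩
        · have h4 : j - c i = 0 := by omega
          rw [h4] at h1
          exact hR.zero _ h1
      choose a ha using hval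
      have h5 : ∑ i, a i • b i = 0 := by
        have h6 : lc b v = 0 := LinearMap.mem_ker.1 hv
        rw [lc_apply] at h6
        rw [← h6]
        exact Finset.sum_congr rfl fun i _ => by rw [← ha i, algebraMap_smul]
      have h7 := Fintype.linearIndependent_iff.1 hli a h5
      ext i
      change v i = 0
      rw [← ha i, h7 i, map_zero]
    have hfin : Module.Finite k (LinearMap.ker π) :=
      Module.Finite.of_injective ((LinearMap.ker π).subtype.restrictScalars k)
        Subtype.val_injective
    have h8 := ih (LinearMap.ker π) (kerGd (gY := gY) π hd)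
      (kerGd_compat π hd (freeGd_compat hR c)) hlow' hev'
    have h9 := theta_add (gR := gR) (freeGd_compat hR c) hX π hπ hd hext D
    rw [h8, theta_free hR hX D c, add_zero] at h9
    exact h9

end ring

end Pool.Agent.Helper35.AR
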